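import Pool.Agent.H98.AO.Defs

/-!
Statements of the modules: models, sizes of sets in models of ZFC, closed sets of the template.
-/

set_option linter.unusedVariables false
set_option linter.unusedSectionVars false
set_option synthInstance.maxSize 100000

namespace AO

open SW

/-! ### models -/

/-- ZFW: countable well-founded models with codes of given relations between numbers -/
def ZFWStmt : Prop := ∀ R : ℕ → Set (Fin 5 → ℕ), ∃ (M : Type) (_ : SetStr M) (_ : ZFC M),
  Countable M ∧ WFd M ∧ ∀ i, Has M (R i)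

/-- WFX: extensions of well-founded models are well-founded -/
def WFXStmt : Prop := ∀ (M : Type) [SetStr M] [ZF M] (F : FPoset M) (G : M → Prop), Gen F G →
  WFd M → WFd (Ext F G)

/-- STD -/
def STDStmt : Prop := ∀ (N : Type) [SetStr N] [ZF N], WFd N → Std N

/-- facts about numbers in extensions -/
structure NuxFacts {M : Type} [SetStr M] [ZF M] (F : FPoset M) (G : M → Prop)
    [ZF (Ext F G)] : Prop where
  nu : ∀ n : ℕ, emb F G (nu n) = (AO.nu n : Ext F G)
  std : Std M → Std (Ext F G)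
  has : ∀ R : Set (Fin 5 → ℕ), Has M R → Has (Ext F G) R

/-- NUX -/
def NUXStmt : Prop := ∀ (M : Type) [SetStr M] [ZF M] (F : FPoset M) (G : M → Prop), Gen F G →
  ∀ [ZF (Ext F G)], NuxFacts F G

/-- CHF: the continuum hypothesis can be forced -/
def CHFStmt : Prop := ∀ (M : Type) [SetStr M] [ZFC M] [Countable M],
  ∃ (F : FPoset M) (G : M → Prop), Gen F G ∧ ∀ [ZFC (Ext F G)], Sz 1 (pow om : Ext F G)

/-! ### sizes -/

/-- facts about alephs -/
structure AlfFacts (M : Type) [SetStr M] [ZF M] : Prop where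
  ex : ∀ n, ∃ w : M, Alf n w
  uniq : ∀ n (v w : M), Alf n v → Alf n w → v = w
  ord : ∀ n (w : M), Alf n w → Ord w
  suc : ∀ n (w a : M), Alf n w → E a w → E (SW.suc a) w
  om : ∀ n (w : M), Alf n w → Sub SW.om w
  lt : ∀ m n (v w : M), m < n → Alf m v → Alf n w → E v w
  w1 : ∀ w : M, Alf 1 w ↔ IsW w
  small : ∀ n (w a : M), Alf (n + 1) w → E a w → Sz n a

/-- ALF -/
def ALFStmt : Prop := ∀ (M : Type) [SetStr M] [ZFC M], AlfFacts M

/-- HES: the square of an aleph -/
def HESStmt : Prop := ∀ (M : Type) [SetStr M] [ZFC M] (n : ℕ) (w : M), Alf n w →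
  Img w (prod w w)

/-- facts about sizes, without products -/
structure SzA (M : Type) [SetStr M] [ZF M] : Prop where
  self : ∀ n (w : M), Alf n w → Sz n w
  not : ∀ n (w : M), Alf (n + 1) w → ¬ Sz n w
  mono : ∀ m n (x : M), m ≤ n → Sz m x → Sz n x
  sub : ∀ n (x y : M), Sz n x → Sub y x → Sz n y
  img : ∀ n (x : M) (f : M → M), Fn1 f → Sz n x → Sz n (SW.img x f)
  inj : ∀ n (x y : M) (f : M → M), Fn1 f → Sz n y → (∀ z, E z x → E (f z) y) →
    (∀ z z', E z x → E z' x → f z = f z' → z = z') → Sz n x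
  cb : ∀ x : M, Sz 0 x ↔ Cb x
  fnt : ∀ n (x : M), Fnt x → Sz n x
  om : ∀ n, Sz n (SW.om : M)

/-- SZA -/
def SZAStmt : Prop := ∀ (M : Type) [SetStr M] [ZFC M], SzA M

/-- facts about sizes -/
structure SzFacts (M : Type) [SetStr M] [ZF M] : Prop extends SzA M where
  bun : ∀ n (x y : M), Sz n x → Sz n y → Sz n (SW.bun x y)
  prod : ∀ n (x y : M), Sz n x → Sz n y → Sz n (SW.prod x y)
  sUn : ∀ n (x : M), Sz n x → (∀ y, E y x → Sz n y) → Sz n (SW.sUn x)
  iUn : ∀ n (x : M) (f : M → M), Fn1 f → Sz n x → (∀ y, E y x → Sz n (f y)) →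
    Sz n (SW.sUn (SW.img x f))
  fsub : ∀ n (x : M), Sz n x → Sz n (sep (pow x) (fun y => Fnt y))

/-- SZF -/
def SZFStmt : Prop := ∀ (M : Type) [SetStr M] [ZFC M], SzFacts M

/-- RGA: successor alephs are regular -/
def RGAStmt : Prop := ∀ (M : Type) [SetStr M] [ZFC M] (n : ℕ) (w s : M), Alf (n + 1) w →
  Sub s w → Sz n s → ∃ b, E b w ∧ ∀ a, E a s → E a b

/-- CBN: the countable subsets of a set of size aleph `n + 1`, under CH -/
def CBNStmt : Prop := ∀ (M : Type) [SetStr M] [ZFC M] (n : ℕ) (x : M), Sz 1 (pow om : M) →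
  Sz (n + 1) x → ∃ C, Sz (n + 1) C ∧ ∀ c, Sub c x → Cb c → E c C

/-- ALW: sets of cardinality less than aleph omega -/
def ALWStmt : Prop := ∀ (N : Type) [SetStr N] [ZFC N] (H : N), Std N → BelowAlephOmega H →
  ∃ n, Sz n H

/-- CLN: closing off under small sets of values -/
def CLNStmt : Prop := ∀ (M : Type) [SetStr M] [ZFC M] (n : ℕ) (X c0 : M) (f : M → M), Fn1 f →
  Sub c0 X → Sz n c0 → (∀ x, E x X → Sub (f x) X ∧ Sz n (f x)) →
  ∃ C, Sub c0 C ∧ Sub C X ∧ Sz n C ∧ ∀ x, E x C → Sub (f x) C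

/-- CLT: closing off under countably many values of a function of two variables -/
def CLTStmt : Prop := ∀ (M : Type) [SetStr M] [ZFC M] (X c0 : M) (f : M → M → M), Fn2 f →
  Sub c0 X → Cb c0 → (∀ x y, E x X → E y X → Sub (f x y) X ∧ Cb (f x y)) →
  ∃ C, Sub c0 C ∧ Sub C X ∧ Cb C ∧ ∀ x y, E x C → E y C → Sub (f x y) C

/-! ### closed sets -/

/-- facts about the template -/
structure TmFacts {M : Type} [SetStr M] [ZF M] (l T : M) : Prop where
  /-- closed sets are closed under common neighbours -/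
  gd : ∀ D, Clo T D → Gd T D
  /-- two points have countably many common neighbours -/
  com : ∀ d d', E d l → E d' l → d ≠ d' → Cb (inter (nb T d) (nb T d'))
  /-- closed sets of given size -/
  cls : ∀ n (X : M), Sub X l → Sz (n + 1) X → ∃ D, Sub X D ∧ Clo T D ∧ Sub D l ∧ Sz (n + 1) D

/-- TMF -/
def TMFStmt : Prop := ∀ (M : Type) [SetStr M] [ZFC M] (l T : M), Tm l T → TmFacts l T

/-- DTH: small sets between two closed sets -/
def DTHStmt : Prop := ∀ (M : Type) [SetStr M] [ZFC M] (l T D D' c : M), Tm l T → Sub D' l →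
  Clo T D' → Nic T D D' → Sub c D' → Cb c →
  ∃ C, Sub c C ∧ Sub C D' ∧ Cb C ∧ Gd T C ∧
    ∀ d n, E d C → ¬ E d D → E n (nb T d) → E n D → E n C

/-- `d` is an increasing sequence, of length aleph `n + 2`, of closed sets of size aleph
`n + 1`, with union `D` -/
structure Chn {M : Type} [SetStr M] [ZF M] (T : M) (n : ℕ) (D k d : M) : Prop where
  alf : Alf (n + 2) k
  clo : ∀ v, E v k → Clo T (app d v) ∧ Sub (app d v) D ∧ Sz (n + 1) (app d v) ∧
    Nic T (app d v) D
  mono : ∀ v v', E v k → E v' v → Sub (app d v') (app d v)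
  /-- countable subsets of the union -/
  ctb : ∀ c, Sub c D → Cb c → ∃ v, E v k ∧ Sub c (app d v)
  /-- countable subsets of a member -/
  cof : ∀ v c, E v k → Sub c (app d v) → Cb c → (∃ v', E v' v ∧ Sub c (app d v')) ∨
    ∃ e, Cb e ∧ Sub e v ∧ ∀ v', E v' v → ∃ u, E u e ∧ (E v' u ∨ v' = u)

/-- CHN: the decomposition of closed sets -/
def CHNStmt : Prop := ∀ (M : Type) [SetStr M] [ZFC M] (l T D : M) (n : ℕ), Tm l T → Clo T D →
  Sub D l → Sz (n + 2) D → ∃ k d, Chn T n D k d

end AO
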