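import Pool.Agent.H98.AO.BStmts

/-!
The interfaces of the blocks: Q (the first notion of forcing), P (the second notion of forcing),
ZD (definability of the relation).
-/

set_option linter.unusedVariables false
set_option linter.unusedSectionVars false
set_option synthInstance.maxSize 100000

namespace AO

open SW

/-- ZDX: the relation `ZZ` is definable in well-founded models which contain some codes -/
def ZDXStmt : Prop := ∃ R : ℕ → Set (Fin 5 → ℕ), ∀ (N : Type) [SetStr N] [ZFC N], WFd N →
  (∀ i, Has N (R i)) → ZD N

/-- QMAIN: a model with CH and a template -/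
def QMAINStmt : Prop := ∀ (M : Type) [SetStr M] [ZFC M] [Countable M], Sz 1 (pow om : M) →
  ∃ (F : FPoset M) (G : M → Prop), Gen F G ∧ ∀ [ZFC (Ext F G)],
    Sz 1 (pow om : Ext F G) ∧ ∃ l T : Ext F G, Tm l T

/-- the final model, as far as the graph is concerned -/
structure PF0 (N : Type) [SetStr N] [ZF N] : Prop where
  bad : ∃ l T y w : N, Bad l T y w
  good : ∀ (n : ℕ) (V' : N), IsV V' → Sz n V' → ∃ V W, Sub V' V ∧ IsV V ∧ GW V W

/-- PMAIN: a model with an injective image of the template such that small sets of vertices have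
good orders -/
def PMAINStmt : Prop := ∃ R : ℕ → Set (Fin 5 → ℕ), ∀ (M : Type) [SetStr M] [ZFC M]
  [Countable M], WFd M → (∀ i, Has M (R i)) → Sz 1 (pow om : M) → ∀ l T : M, Tm l T →
  ∃ (F : FPoset M) (G : M → Prop), Gen F G ∧ ∀ [ZFC (Ext F G)], PF0 (Ext F G)

end AO
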