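import Pool.Agent.H36.AO.PStmts

/-!
CCB: the countable chain condition.
-/

set_option linter.unusedVariables false
set_option linter.unusedSectionVars false
set_option synthInstance.maxSize 100000

namespace AO.BP

open SW

section
variable {M : Type} [SetStr M] [ZF M]

theorem ccb_sing {x : M} (hC : CbFacts M) (h : ∀ p q, E p x → E q x → p = q) : Cb x := by
  by_cases h1 : ∃ p, E p x
  · obtain ⟨p, hp⟩ := h1
    refine hC.sub (hC.fin (finF.ins (a := p) finF.emp)) fun q hq => ?_
    rw [mem_ins]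
    exact Or.inr (h q p hq hp)
  · exact hC.sub (hC.fin finF.emp) fun q hq => absurd ⟨q, hq⟩ h1

/-- common neighbours of the two components -/
noncomputable def ccf (T z : M) : M := sep (nb T (CC.fst z)) (fun x => E x (nb T (CC.snd z)) ∧
  ¬ CC.fst z = CC.snd z)

theorem ccf_df (T : M) : Fn1 (fun z : M => ccf T z) := by unfold ccf; infer_instance

theorem mem_ccf {T z x : M} : E x (ccf T z) ↔ E x (nb T (CC.fst z)) ∧ E x (nb T (CC.snd z)) ∧
    ¬ CC.fst z = CC.snd z := by
  unfold ccf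
  rw [mem_sep' inferInstance]

end

/-- CCB -/
theorem ao_ccb (tmf : TMFStmt) (del : DELStmt) (cbt : CBTStmt) : CCBStmt := by
  intro M _ _ l T P hT hP a ha
  have hC : CbFacts M := cbt M
  have hTF := tmf M l T hT
  by_contra hna
  obtain ⟨A, r, hA, hAc, hr, hrA, hAr⟩ := del M a (fun p => SP p) SP_df hna fun p hp => by
    unfold SP
    exact finF.bun (finF.img _ inferInstance (hP.fnt p (ha.1 p hp)))
      (finF.img _ inferInstance (hP.fnt p (ha.1 p hp)))
  have hAP : ∀ p, E p A → E p P := fun p hp => ha.1 p (hA p hp)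
  -- the root consists of indices
  have hSl : ∀ p i, E p P → E i (SP p) → E i l := by
    intro p i hp hi
    obtain ⟨z, hz, h⟩ := mem_SP.1 hi
    obtain ⟨g, j, i', k, rfl, h1, h2, h3, -⟩ := hP.fct p z hp hz
    rw [x1_fct, x2_fct] at h
    rcases h with rfl | rfl
    · exact h2
    · exact h3
  have hne : ∃ p, E p A := by
    by_contra h
    exact hAc (hC.sub (hC.fin finF.emp) fun q hq => absurd ⟨q, hq⟩ h)
  have hrl : Sub r l := by
    obtain ⟨p, hp⟩ := hne
    exact fun i hi => hSl p i (hAP p hp) (hrA p hp i hi)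
  have hrc : Cb r := hC.fin hr
  -- the common neighbours of the members of the root
  have hK : Cb (sUn (img (prod r r) (fun z => ccf T z))) := by
    refine hC.iUn (fun z => ccf T z) (ccf_df T) (hC.prod hrc hrc) fun z hz => ?_
    obtain ⟨d, e, hd, he, rfl⟩ := mem_prod'.1 hz
    by_cases hde : d = e
    · refine ccb_sing hC fun p q hp hq => ?_
      rw [mem_ccf, CC.fst_opair, CC.snd_opair] at hp
      exact absurd hde hp.2.2
    · refine hC.sub (hTF.com d e (hrl d hd) (hrl e he) hde) fun x hx => ?_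
      rw [mem_ccf, CC.fst_opair, CC.snd_opair] at hx
      rw [mem_inter]
      exact ⟨hx.1, hx.2.1⟩
  obtain ⟨K, hKe⟩ : ∃ K : M, K = sUn (img (prod r r) (fun z => ccf T z)) := ⟨_, rfl⟩
  rw [← hKe] at hK
  have hKm : ∀ d e x, E d r → E e r → d ≠ e → E x (nb T d) → E x (nb T e) → E x K := by
    intro d e x hd he hde h1 h2
    rw [hKe, mem_sUn]
    refine ⟨ccf T (opair d e), (mem_img' (ccf_df T)).2 ⟨opair d e, mem_prod.2 ⟨hd, he⟩, rfl⟩, ?_⟩
    rw [mem_ccf, CC.fst_opair, CC.snd_opair]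
    exact ⟨h1, h2, hde⟩
  -- the members of `A` whose supports meet this set outside the root
  have hB : Cb (sUn (img K (fun x => sep A (fun p => E x (SP p) ∧ ¬ E x r)))) := by
    refine hC.iUn (fun x => sep A (fun p => E x (SP p) ∧ ¬ E x r)) (by infer_instance) hK
      fun x hx => ?_
    refine ccb_sing hC fun p q hp hq => ?_
    rw [mem_sep' inferInstance] at hp hq
    by_contra hpq
    exact hp.2.2 (hAr p q hp.1 hq.1 hpq x hp.2.1 hq.2.1)
  obtain ⟨B, hBe⟩ : ∃ B : M, B = sUn (img K (fun x => sep A (fun p => E x (SP p) ∧ ¬ E x r))) :=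
    ⟨_, rfl⟩
  rw [← hBe] at hB
  have hBm : ∀ p x, E p A → E x K → E x (SP p) → ¬ E x r → E p B := by
    intro p x hp hx h1 h2
    rw [hBe, mem_sUn]
    refine ⟨sep A (fun p => E x (SP p) ∧ ¬ E x r), (mem_img' inferInstance).2 ⟨x, hx, rfl⟩, ?_⟩
    rw [mem_sep' inferInstance]
    exact ⟨hp, h1, h2⟩
  have hD : ¬ Cb (diff A B) := by
    intro h
    refine hAc (hC.sub (hC.bun h hB) fun p hp => ?_)
    rw [mem_bun, mem_diff]
    by_cases h1 : E p B
    · exact Or.inr h1
    · exact Or.inl ⟨hp, h1⟩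
  -- two members with the same restriction to the root
  have hFS : Cb (sep (pow (prod (nu 3) (prod om (prod r r)))) (fun y => Fnt y) : M) := by
    refine hC.fsub (hC.prod (hC.fin (finF.nat (CUR.nu_mem_om 3))) (hC.prod hC.om ?_))
    exact hC.prod hrc hrc
  have hval : ∀ p, E p P → E (rst p r) (sep (pow (prod (nu 3) (prod om (prod r r))))
      (fun y => Fnt y) : M) := by
    intro p hp
    rw [mem_sep' inferInstance, mem_pow]
    refine ⟨fun z hz => ?_, finF.sub (hP.fnt p hp) fun z hz => (mem_rst.1 hz).1⟩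
    rw [mem_rst] at hz
    obtain ⟨hz, h1, h2⟩ := hz
    obtain ⟨g, j, i, k, rfl, h3, h4, h5, h6, -⟩ := hP.fct p z hp hz
    rw [x1_fct] at h1
    rw [x2_fct] at h2
    unfold fct
    rw [mem_prod, mem_prod, mem_prod]
    refine ⟨?_, h3, h1, h2⟩
    rcases h6 with rfl | rfl | rfl
    · exact CUR.nu_lt (by omega)
    · exact CUR.nu_lt (by omega)
    · exact CUR.nu_lt (by omega)
  obtain ⟨p, q, hp, hq, hpq, he⟩ : ∃ p q, E p (diff A B) ∧ E q (diff A B) ∧ p ≠ q ∧
      rst p r = rst q r := by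
    by_contra hcon
    refine hD (hC.inj (fun p => rst p r) (by infer_instance) hFS
      (fun p hp => hval p (hAP p (mem_diff.1 hp).1)) fun p q hp hq h => ?_)
    by_contra hpq
    exact hcon ⟨p, q, hp, hq, hpq, h⟩
  rw [mem_diff] at hp hq
  refine ha.2 p q (hA p hp.1) (hA q hq.1) hpq (hP.ama p q r (hAP p hp.1) (hAP q hq.1)
    (hAr p q hp.1 hq.1 hpq) ?_ ?_)
  · rw [he]
    exact fun z hz => (mem_rst.1 hz).1
  · intro i hi hir d e hd he hdi hei
    by_contra hde
    exact hp.2 (hBm p i hp.1 (hKm d e i hd he hde hdi hei) hi hir)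

end AO.BP
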