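import Pool.Agent.H36.AO.PStmts

/-!
CFA: facts about the set of conditions.
-/

set_option linter.unusedVariables false
set_option linter.unusedSectionVars false
set_option synthInstance.maxSize 100000

namespace AO.BP

open SW

section
variable {M : Type} [SetStr M] [ZF M]

theorem cfa_nu_eq {m n : ℕ} : (nu m : M) = nu n ↔ m = n :=
  ⟨fun h => CUR.nu_inj h, fun h => by rw [h]⟩

/-- the facts of an encoded approximation, first kind -/
theorem enc_a {l p : M} {c : Cn (Ix l)} (h : Enc l p c) (i : Ix l) (k v : ℕ) :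
    E (fct (nu 0) (nu (Nat.pair k v)) i.1 i.1) p ↔ (c.a i)[k]? = some v := by
  rw [h]
  constructor
  · rintro (⟨j, k', v', h1, h2⟩ | ⟨j, k', v', h1, h2⟩ | ⟨d, j, m, h1, h2⟩)
    · rw [fct_inj] at h2
      obtain ⟨-, h3, h4, -⟩ := h2
      rw [cfa_nu_eq, Nat.pair_eq_pair] at h3
      have : i = j := Subtype.ext h4
      rw [this, h3.1, h3.2]
      exact h1
    · rw [fct_inj] at h2
      have := CUR.nu_inj h2.1
      omega
    · rw [fct_inj] at h2
      have := CUR.nu_inj h2.1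
      omega
  · intro h1
    exact Or.inl ⟨i, k, v, h1, rfl⟩

/-- second kind -/
theorem enc_t {l p : M} {c : Cn (Ix l)} (h : Enc l p c) (i : Ix l) (k v : ℕ) :
    E (fct (nu 1) (nu (Nat.pair k v)) i.1 i.1) p ↔ (c.t i)[k]? = some v := by
  rw [h]
  constructor
  · rintro (⟨j, k', v', h1, h2⟩ | ⟨j, k', v', h1, h2⟩ | ⟨d, j, m, h1, h2⟩)
    · rw [fct_inj] at h2
      have := CUR.nu_inj h2.1
      omega
    · rw [fct_inj] at h2
      obtain ⟨-, h3, h4, -⟩ := h2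
      rw [cfa_nu_eq, Nat.pair_eq_pair] at h3
      have : i = j := Subtype.ext h4
      rw [this, h3.1, h3.2]
      exact h1
    · rw [fct_inj] at h2
      have := CUR.nu_inj h2.1
      omega
  · intro h1
    exact Or.inr (Or.inl ⟨i, k, v, h1, rfl⟩)

/-- third kind -/
theorem enc_B {l p : M} {c : Cn (Ix l)} (h : Enc l p c) (d i : Ix l) (m : ℕ) :
    E (fct (nu 2) (nu m) d.1 i.1) p ↔ c.B d i m := by
  rw [h]
  constructor
  · rintro (⟨j, k', v', h1, h2⟩ | ⟨j, k', v', h1, h2⟩ | ⟨d', j, m', h1, h2⟩)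
    · rw [fct_inj] at h2
      have := CUR.nu_inj h2.1
      omega
    · rw [fct_inj] at h2
      have := CUR.nu_inj h2.1
      omega
    · rw [fct_inj] at h2
      obtain ⟨-, h3, h4, h5⟩ := h2
      rw [cfa_nu_eq] at h3
      have e1 : d = d' := Subtype.ext h4
      have e2 : i = j := Subtype.ext h5
      rw [e1, e2, h3]
      exact h1
  · intro h1
    exact Or.inr (Or.inr ⟨d, i, m, h1, rfl⟩)

theorem cfa_prefix {s t : List ℕ} (h : ∀ k v : ℕ, s[k]? = some v → t[k]? = some v) : s <+: t := by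
  rw [List.prefix_iff_getElem?]
  intro k hk
  exact h k _ (List.getElem?_eq_getElem hk)

theorem cfa_of_prefix {s t : List ℕ} (h : s <+: t) {k v : ℕ} (hk : s[k]? = some v) :
    t[k]? = some v := by
  rw [List.prefix_iff_getElem?] at h
  obtain ⟨h1, h2⟩ := List.getElem?_eq_some_iff.1 hk
  rw [h k h1, h2]

/-- the order of encoded approximations -/
theorem enc_le {l p q : M} {c e : Cn (Ix l)} (hp : Enc l p c) (hq : Enc l q e) :
    Sub p q ↔ Le e c := by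
  constructor
  · intro h
    refine ⟨fun i => cfa_prefix fun k v hk => ?_, fun i => cfa_prefix fun k v hk => ?_,
      fun d i m hB => ?_⟩
    · exact (enc_a hq i k v).1 (h _ ((enc_a hp i k v).2 hk))
    · exact (enc_t hq i k v).1 (h _ ((enc_t hp i k v).2 hk))
    · exact (enc_B hq d i m).1 (h _ ((enc_B hp d i m).2 hB))
  · intro h z hz
    rw [hp] at hz
    rcases hz with ⟨j, k', v', h1, rfl⟩ | ⟨j, k', v', h1, rfl⟩ | ⟨d', j, m', h1, rfl⟩
    · exact (enc_a hq _ _ _).2 (cfa_of_prefix (h.a j) h1)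
    · exact (enc_t hq _ _ _).2 (cfa_of_prefix (h.t j) h1)
    · exact (enc_B hq _ _ _).2 (h.B _ _ _ h1)

theorem cfa_ne_nil {s : List ℕ} : s ≠ [] ↔ ∃ k v : ℕ, s[k]? = some v := by
  constructor
  · intro h
    obtain ⟨a, t, rfl⟩ := List.exists_cons_of_ne_nil h
    exact ⟨0, a, rfl⟩
  · rintro ⟨k, v, h⟩ rfl
    simp at h

/-- the support of an encoded approximation -/
theorem enc_sp {l p : M} {T : Ix l → Ix l → Prop} {c : Cn (Ix l)} (hp : Enc l p c)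
    (hc : VC T c) (i : M) : E i (SP p) ↔ ∃ h : E i l, (⟨i, h⟩ : Ix l) ∈ c.sp := by
  obtain ⟨n, hn⟩ := hc.pc
  rw [mem_SP]
  constructor
  · rintro ⟨z, hz, hi⟩
    rw [hp] at hz
    rcases hz with ⟨j, k', v', h1, rfl⟩ | ⟨j, k', v', h1, rfl⟩ | ⟨d', j, m', h1, rfl⟩
    · rw [x1_fct, x2_fct, or_self] at hi
      subst hi
      exact ⟨j.2, Or.inl (cfa_ne_nil.2 ⟨k', v', h1⟩)⟩
    · rw [x1_fct, x2_fct, or_self] at hi
      subst hi
      exact ⟨j.2, Or.inr (cfa_ne_nil.2 ⟨k', v', h1⟩)⟩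
    · rw [x1_fct, x2_fct] at hi
      obtain ⟨-, b1, b2, -, -⟩ := hn.b _ _ _ h1
      rcases hi with rfl | rfl
      · exact ⟨d'.2, Or.inr b1⟩
      · exact ⟨j.2, Or.inl b2⟩
  · rintro ⟨h, h1 | h1⟩
    · obtain ⟨k, v, hk⟩ := cfa_ne_nil.1 h1
      exact ⟨_, (enc_a hp ⟨i, h⟩ k v).2 hk, Or.inl (by rw [x1_fct])⟩
    · obtain ⟨k, v, hk⟩ := cfa_ne_nil.1 h1
      exact ⟨_, (enc_t hp ⟨i, h⟩ k v).2 hk, Or.inl (by rw [x1_fct])⟩

/-- the native version of a set of indices -/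
def nset (l X : M) : Set (Ix l) := {i | E i.1 X}

open Classical in
theorem cfa_rs_get {l X : M} (f : Ix l → List ℕ) (i : Ix l) (k v : ℕ) :
    (if i ∈ nset l X then f i else [])[k]? = some v ↔ E i.1 X ∧ (f i)[k]? = some v := by
  by_cases h : i ∈ nset l X
  · rw [if_pos h]
    exact ⟨fun h1 => ⟨h, h1⟩, fun h1 => h1.2⟩
  · rw [if_neg h]
    constructor
    · intro h1
      simp at h1
    · intro h1
      exact absurd h1.1 h

/-- restrictions of encoded approximations -/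
theorem enc_rs {l p : M} {c : Cn (Ix l)} (hp : Enc l p c) (X : M) :
    Enc l (rst p X) (c.rs (nset l X)) := by
  intro z
  rw [mem_rst, hp]
  constructor
  · rintro ⟨⟨j, k', v', h1, rfl⟩ | ⟨j, k', v', h1, rfl⟩ | ⟨d', j, m', h1, rfl⟩, h2, h3⟩
    · rw [x1_fct] at h2
      exact Or.inl ⟨j, k', v', (cfa_rs_get c.a j k' v').2 ⟨h2, h1⟩, rfl⟩
    · rw [x1_fct] at h2
      exact Or.inr (Or.inl ⟨j, k', v', (cfa_rs_get c.t j k' v').2 ⟨h2, h1⟩, rfl⟩)
    · rw [x1_fct] at h2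
      rw [x2_fct] at h3
      exact Or.inr (Or.inr ⟨d', j, m', ⟨h2, h3, h1⟩, rfl⟩)
  · rintro (⟨j, k', v', h1, rfl⟩ | ⟨j, k', v', h1, rfl⟩ | ⟨d', j, m', h1, rfl⟩)
    · obtain ⟨h2, h3⟩ := (cfa_rs_get c.a j k' v').1 h1
      refine ⟨Or.inl ⟨j, k', v', h3, rfl⟩, ?_⟩
      rw [x1_fct, x2_fct]
      exact ⟨h2, h2⟩
    · obtain ⟨h2, h3⟩ := (cfa_rs_get c.t j k' v').1 h1
      refine ⟨Or.inr (Or.inl ⟨j, k', v', h3, rfl⟩), ?_⟩
      rw [x1_fct, x2_fct]
      exact ⟨h2, h2⟩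
    · obtain ⟨h2, h3, h4⟩ := h1
      refine ⟨Or.inr (Or.inr ⟨d', j, m', h4, rfl⟩), ?_⟩
      rw [x1_fct, x2_fct]
      exact ⟨h2, h3⟩

/-- an encoded approximation has finitely many facts -/
theorem enc_fin {l p : M} {T : Ix l → Ix l → Prop} {c : Cn (Ix l)} (hp : Enc l p c)
    (hc : VC T c) : {z | E z p}.Finite := by
  obtain ⟨n, hn⟩ := hc.pc
  have h1 : {z | E z p} ⊆
      ((⋃ i ∈ {i | c.a i ≠ []}, (fun k => fct (nu 0) (nu (Nat.pair k ((c.a i).getD k 0))) i.1 i.1 :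
        ℕ → M) '' Set.Iio (n + 1)) ∪
      (⋃ i ∈ {i | c.t i ≠ []}, (fun k => fct (nu 1) (nu (Nat.pair k ((c.t i).getD k 0))) i.1 i.1 :
        ℕ → M) '' Set.Iio (n + 1))) ∪
      ⋃ i ∈ {i | c.t i ≠ []}, ⋃ j ∈ {j | c.a j ≠ []}, (fun m => fct (nu 2) (nu m) i.1 j.1 :
        ℕ → M) '' Set.Iio (n + 1) := by
    intro z hz
    rcases (hp z).1 hz with ⟨j, k, v, h1, rfl⟩ | ⟨j, k, v, h1, rfl⟩ | ⟨d, j, m, h1, rfl⟩
    · refine Or.inl (Or.inl ?_)
      have hne : c.a j ≠ [] := cfa_ne_nil.2 ⟨k, v, h1⟩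
      obtain ⟨hk, hv⟩ := List.getElem?_eq_some_iff.1 h1
      rw [hn.la j hne] at hk
      refine Set.mem_biUnion hne ⟨k, Set.mem_Iio.2 (by omega), ?_⟩
      have : (c.a j).getD k 0 = v := by
        rw [List.getD_eq_getElem?_getD, h1, Option.getD_some]
      simp only [this]
    · refine Or.inl (Or.inr ?_)
      have hne : c.t j ≠ [] := cfa_ne_nil.2 ⟨k, v, h1⟩
      obtain ⟨hk, hv⟩ := List.getElem?_eq_some_iff.1 h1
      rw [hn.lt j hne] at hk
      refine Set.mem_biUnion hne ⟨k, Set.mem_Iio.2 (by omega), ?_⟩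
      have : (c.t j).getD k 0 = v := by
        rw [List.getD_eq_getElem?_getD, h1, Option.getD_some]
      simp only [this]
    · refine Or.inr ?_
      obtain ⟨-, b1, b2, b3, -⟩ := hn.b _ _ _ h1
      exact Set.mem_biUnion b1 (Set.mem_biUnion b2 ⟨m, Set.mem_Iio.2 (by omega), rfl⟩)
  refine Set.Finite.subset ?_ h1
  refine ((hn.fa.biUnion fun i _ => ?_).union (hn.ft.biUnion fun i _ => ?_)).union
    (hn.ft.biUnion fun i _ => hn.fa.biUnion fun j _ => ?_)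
  · exact (Set.finite_Iio _).image _
  · exact (Set.finite_Iio _).image _
  · exact (Set.finite_Iio _).image _

end

/-- CFA -/
theorem ao_cfa (stf : STFStmt) (lep : LEPStmt) (amb : AMBStmt) : CFAStmt := by
  intro M _ _ l T F hM hF
  have hmem : ∀ p, E p F.P → ∃ c : Cn (Ix l), VC (Tt l T) c ∧ Enc l p c :=
    fun p hp => (hF.P p).1 hp
  refine ⟨?_, ?_, ?_, ?_, ?_⟩
  · rw [← hF.one]
    exact F.one_mem
  · intro p hp
    obtain ⟨c, hc, he⟩ := hmem p hp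
    exact ((stf M hM.std).1 p).2 (enc_fin he hc)
  · intro p z hp hz
    obtain ⟨c, hc, he⟩ := hmem p hp
    obtain ⟨n, hn⟩ := hc.pc
    rcases (he z).1 hz with ⟨j, k, v, h1, rfl⟩ | ⟨j, k, v, h1, rfl⟩ | ⟨d, j, m, h1, rfl⟩
    · refine ⟨_, _, _, _, rfl, CUR.nu_mem_om _, j.2, j.2, Or.inl rfl, fun h => ?_,
        fun _ => rfl⟩
      have := CUR.nu_inj h
      omega
    · refine ⟨_, _, _, _, rfl, CUR.nu_mem_om _, j.2, j.2, Or.inr (Or.inl rfl), fun h => ?_,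
        fun _ => rfl⟩
      have := CUR.nu_inj h
      omega
    · refine ⟨_, _, _, _, rfl, CUR.nu_mem_om _, d.2, j.2, Or.inr (Or.inr rfl), fun _ => ?_,
        fun h => absurd rfl h⟩
      exact (hn.b _ _ _ h1).1
  · intro p X hp
    obtain ⟨c, hc, he⟩ := hmem p hp
    exact (hF.P _).2 ⟨c.rs (nset l X), lep.rs _ _ _ _ hc, enc_rs he X⟩
  · intro p q X hp hq h1 h2 h3
    obtain ⟨c, hc, he⟩ := hmem p hp
    obtain ⟨e, hce, hee⟩ := hmem q hq
    obtain ⟨r, hr, hr1, hr2⟩ := amb (Ix l) (Tt l T) (nset l X) c e hc hce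
      (fun i hi hi' => h1 i.1 ((enc_sp he hc _).2 ⟨i.2, hi⟩) ((enc_sp hee hce _).2 ⟨i.2, hi'⟩))
      ((enc_le (enc_rs he X) hee).1 h2)
      (fun i hi hiX d f hd hf hdi hfi => Subtype.ext (h3 i.1 ((enc_sp he hc _).2 ⟨i.2, hi⟩) hiX
        d.1 f.1 hd hf hdi hfi))
    obtain ⟨p', hp'⟩ := hF.ex r hr
    exact ⟨p', (hF.P _).2 ⟨r, hr, hp'⟩, (enc_le he hp').2 hr1, (enc_le hee hp').2 hr2⟩

end AO.BP
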