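import Mathlib.Data.List.Basic
import Mathlib.Data.Finset.Basic
import Mathlib.Logic.Encodable.Basic
import Mathlib.Logic.Equiv.Finset
import Mathlib.Data.Nat.Pairing
import Mathlib.Tactic

/-!
The relation between infinite sequences.
-/

namespace AO

/-- finite 0-1-sequences -/
abbrev Str := List Bool

/-- infinite 0-1-sequences -/
abbrev Rl := ℕ → Bool

/-- the initial segment of length `n` of an infinite sequence -/
def str (X : Rl) (n : ℕ) : Str := (List.range n).map X

/-- the code of a string -/
noncomputable def sc (s : Str) : ℕ := Encodable.encode s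

/-- the initial segment of length `n` of a sequence of numbers -/
def ini (a : ℕ → ℕ) (n : ℕ) : List ℕ := (List.range n).map a

/-- the finite set of sequences with the code `n` -/
noncomputable def fs (n : ℕ) : Finset (List ℕ) := ((Encodable.decode n).getD ∅ : Finset (List ℕ))

/-- the code of a finite sequence -/
noncomputable def lc (s : List ℕ) : ℕ := Encodable.encode s

/-- `t` is admissible: two different immediate successors in `fs (t (l + 1))` of a member of
`fs (t l)` end with numbers which code the initial segment of `t` of length `l + 1` -/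
def Adm (t : ℕ → ℕ) : Prop := ∀ (l : ℕ) (s : List ℕ) (x x' : ℕ), s ∈ fs (t l) → x ≠ x' →
  s ++ [x] ∈ fs (t (l + 1)) → s ++ [x'] ∈ fs (t (l + 1)) →
  (Nat.unpair x).1 = lc (ini t (l + 1)) ∧ (Nat.unpair x').1 = lc (ini t (l + 1))

/-- the relation between sequences of numbers -/
def EE (t a : ℕ → ℕ) : Prop := Adm t ∧ ∃ m, ∀ l, m ≤ l → ini a l ∈ fs (t l)

/-- the graph of a sequence of numbers, as a 0-1-sequence -/
def gc (a : ℕ → ℕ) : Rl := fun n => decide (a (Nat.unpair n).1 = (Nat.unpair n).2)

/-- the relation between 0-1-sequences: `Y` is the graph of `t`, `W` is the graph of `a` -/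
def ZZ (Y W : Rl) : Prop := ∃ t a, Y = gc t ∧ W = gc a ∧ EE t a

end AO
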