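import Pool.Agent.H98.AO.Core
import Pool.Agent.H35.SW.FRel

/-!
The statement about groups is expressed by a sentence of the language of set theory.
-/

set_option linter.unusedVariables false
set_option synthInstance.maxSize 100000

namespace AO

open SW

theorem Incl_u : UDf (fun M _ (w : Fin 2 → M) => Incl (w 0) (w 1)) := by
  unfold Incl; infer_instance

instance {n : ℕ} {t s : ∀ (M : Type) [SetStr M], (Fin n → M) → M} [UV t] [UV s] :
    UDf (fun M _ v => Incl (t M v) (s M v)) := Incl_u.comp2 (R := fun _ _ a b => Incl a b) t s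

theorem IsInductive_u : UDf (fun M _ (w : Fin 1 → M) => IsInductive (w 0)) := by
  unfold IsInductive; infer_instance

instance {n : ℕ} {t : ∀ (M : Type) [SetStr M], (Fin n → M) → M} [UV t] :
    UDf (fun M _ v => IsInductive (t M v)) :=
  IsInductive_u.comp1 (R := fun _ _ a => IsInductive a) t

theorem IsOmega_u : UDf (fun M _ (w : Fin 1 → M) => IsOmega (w 0)) := by
  unfold IsOmega; infer_instance

instance {n : ℕ} {t : ∀ (M : Type) [SetStr M], (Fin n → M) → M} [UV t] :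
    UDf (fun M _ v => IsOmega (t M v)) := IsOmega_u.comp1 (R := fun _ _ a => IsOmega a) t

theorem Trp_u : UDf (fun M _ (w : Fin 4 → M) => Trp (w 0) (w 1) (w 2) (w 3)) := by
  unfold Trp; infer_instance

instance {n : ℕ} {t s u x : ∀ (M : Type) [SetStr M], (Fin n → M) → M} [UV t] [UV s] [UV u] [UV x] :
    UDf (fun M _ v => Trp (t M v) (s M v) (u M v) (x M v)) :=
  Trp_u.comp4 (R := fun _ _ a b c d => Trp a b c d) t s u x

theorem IsOperation_u : UDf (fun M _ (w : Fin 2 → M) => IsOperation (w 0) (w 1)) := by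
  unfold IsOperation; infer_instance

instance {n : ℕ} {t s : ∀ (M : Type) [SetStr M], (Fin n → M) → M} [UV t] [UV s] :
    UDf (fun M _ v => IsOperation (t M v) (s M v)) :=
  IsOperation_u.comp2 (R := fun _ _ a b => IsOperation a b) t s

theorem isRealNumbers_iff {M : Type} [SetStr M] (R P Q L z u : M) : IsRealNumbers R P Q L z u ↔
    (E z R ∧ E u R ∧ (¬ z = u) ∧ IsOperation R P ∧ IsOperation R Q) ∧
    ((∀ a b c, E a R → E b R → Trp a b c P → Trp b a c P) ∧
    (∀ a b c x y s, E a R → E b R → E c R → Trp a b x P → Trp x c s P → Trp b c y P →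
      Trp a y s P) ∧
    (∀ a, E a R → Trp z a a P) ∧
    (∀ a, E a R → ∃ b, E b R ∧ Trp a b z P)) ∧
    ((∀ a b c, E a R → E b R → Trp a b c Q → Trp b a c Q) ∧
    (∀ a b c x y s, E a R → E b R → E c R → Trp a b x Q → Trp x c s Q → Trp b c y Q →
      Trp a y s Q) ∧
    (∀ a, E a R → Trp u a a Q) ∧
    (∀ a, E a R → (¬ a = z) → ∃ b, E b R ∧ Trp a b u Q)) ∧
    ((∀ a b c s t x y, E a R → E b R → E c R → Trp b c s P → Trp a s t Q →
      Trp a b x Q → Trp a c y Q → Trp x y t P) ∧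
    (∀ a, E a R → PairIn a a L) ∧
    (∀ a b, E a R → E b R → PairIn a b L → PairIn b a L → a = b) ∧
    (∀ a b c, E a R → E b R → E c R → PairIn a b L → PairIn b c L → PairIn a c L) ∧
    (∀ a b, E a R → E b R → PairIn a b L ∨ PairIn b a L)) ∧
    ((∀ a b c x y, E a R → E b R → E c R → PairIn a b L → Trp a c x P → Trp b c y P →
      PairIn x y L) ∧
    (∀ a b c, E a R → E b R → PairIn z a L → PairIn z b L → Trp a b c Q →
      PairIn z c L) ∧
    (∀ S, Incl S R → (∃ a, E a S) → (∃ b, E b R ∧ ∀ a, E a S → PairIn a b L) →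
      ∃ s, E s R ∧ (∀ a, E a S → PairIn a s L) ∧
        ∀ b, E b R → (∀ a, E a S → PairIn a b L) → PairIn s b L)) :=
  ⟨fun h => ⟨⟨h.zero_mem, h.one_mem, h.ne, h.add_op, h.mul_op⟩,
    ⟨h.add_comm, h.add_assoc, h.zero_add, h.neg⟩, ⟨h.mul_comm, h.mul_assoc, h.one_mul, h.inv⟩,
    ⟨h.distrib, h.le_refl, h.le_antisymm, h.le_trans, h.le_total⟩,
    ⟨h.add_le, h.mul_nonneg, h.sup⟩⟩,
   fun ⟨⟨h1, h2, h3, h4, h5⟩, ⟨h6, h7, h8, h9⟩, ⟨h10, h11, h12, h13⟩,
    ⟨h14, h15, h16, h17, h18⟩, ⟨h19, h20, h21⟩⟩ =>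
    ⟨h1, h2, h3, h4, h5, h6, h7, h8, h9, h10, h11, h12, h13, h14, h15, h16, h17, h18, h19, h20,
      h21⟩⟩

theorem IsFunction_u : UDf (fun M _ (w : Fin 3 → M) => AO.IsFunction (w 0) (w 1) (w 2)) := by
  unfold AO.IsFunction; infer_instance

instance {n : ℕ} {t s u : ∀ (M : Type) [SetStr M], (Fin n → M) → M} [UV t] [UV s] [UV u] :
    UDf (fun M _ v => AO.IsFunction (t M v) (s M v) (u M v)) :=
  IsFunction_u.comp3 (R := fun _ _ a b c => AO.IsFunction a b c) t s u

theorem Injects_u : UDf (fun M _ (w : Fin 2 → M) => Injects (w 0) (w 1)) := by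
  unfold Injects; infer_instance

instance {n : ℕ} {t s : ∀ (M : Type) [SetStr M], (Fin n → M) → M} [UV t] [UV s] :
    UDf (fun M _ v => Injects (t M v) (s M v)) :=
  Injects_u.comp2 (R := fun _ _ a b => Injects a b) t s

theorem IsOrdinal_u : UDf (fun M _ (w : Fin 1 → M) => AO.IsOrdinal (w 0)) := by
  unfold AO.IsOrdinal; infer_instance

instance {n : ℕ} {t : ∀ (M : Type) [SetStr M], (Fin n → M) → M} [UV t] :
    UDf (fun M _ v => AO.IsOrdinal (t M v)) :=
  IsOrdinal_u.comp1 (R := fun _ _ a => AO.IsOrdinal a) t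

theorem IsNextCardinal_u : UDf (fun M _ (w : Fin 2 → M) => IsNextCardinal (w 0) (w 1)) := by
  unfold IsNextCardinal; infer_instance

instance {n : ℕ} {t s : ∀ (M : Type) [SetStr M], (Fin n → M) → M} [UV t] [UV s] :
    UDf (fun M _ v => IsNextCardinal (t M v) (s M v)) :=
  IsNextCardinal_u.comp2 (R := fun _ _ a b => IsNextCardinal a b) t s

theorem BelowAlephOmega_u : UDf (fun M _ (w : Fin 1 → M) => BelowAlephOmega (w 0)) := by
  unfold BelowAlephOmega; infer_instance

instance {n : ℕ} {t : ∀ (M : Type) [SetStr M], (Fin n → M) → M} [UV t] :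
    UDf (fun M _ v => BelowAlephOmega (t M v)) :=
  BelowAlephOmega_u.comp1 (R := fun _ _ a => BelowAlephOmega a) t

theorem IsGroup_u : UDf (fun M _ (w : Fin 2 → M) => AO.IsGroup (w 0) (w 1)) := by
  unfold AO.IsGroup; infer_instance

instance {n : ℕ} {t s : ∀ (M : Type) [SetStr M], (Fin n → M) → M} [UV t] [UV s] :
    UDf (fun M _ v => AO.IsGroup (t M v) (s M v)) :=
  IsGroup_u.comp2 (R := fun _ _ a b => AO.IsGroup a b) t s

theorem IsHom_u : UDf (fun M _ (w : Fin 5 → M) => IsHom (w 0) (w 1) (w 2) (w 3) (w 4)) := by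
  unfold IsHom; infer_instance

instance {n : ℕ} {t s u x y : ∀ (M : Type) [SetStr M], (Fin n → M) → M} [UV t] [UV s] [UV u]
    [UV x] [UV y] :
    UDf (fun M _ v => IsHom (t M v) (s M v) (u M v) (x M v) (y M v)) :=
  IsHom_u.comp5 (R := fun _ _ a b c d e => IsHom a b c d e) t s u x y

theorem IsBasis_u : UDf (fun M _ (w : Fin 3 → M) => IsBasis (w 0) (w 1) (w 2)) := by
  unfold IsBasis; infer_instance

instance {n : ℕ} {t s u : ∀ (M : Type) [SetStr M], (Fin n → M) → M} [UV t] [UV s] [UV u] :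
    UDf (fun M _ v => IsBasis (t M v) (s M v) (u M v)) :=
  IsBasis_u.comp3 (R := fun _ _ a b c => IsBasis a b c) t s u

theorem IsFree_u : UDf (fun M _ (w : Fin 2 → M) => AO.IsFree (w 0) (w 1)) := by
  unfold AO.IsFree; infer_instance

instance {n : ℕ} {t s : ∀ (M : Type) [SetStr M], (Fin n → M) → M} [UV t] [UV s] :
    UDf (fun M _ v => AO.IsFree (t M v) (s M v)) :=
  IsFree_u.comp2 (R := fun _ _ a b => AO.IsFree a b) t s

theorem btw_iff {M : Type} [SetStr M] (L a b c : M) : Btw L a b c ↔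
    PairIn a b L ∧ (¬ a = b) ∧ PairIn b c L ∧ ¬ b = c := Iff.rfl

theorem Btw_u : UDf (fun M _ (w : Fin 4 → M) => Btw (w 0) (w 1) (w 2) (w 3)) := by
  simp only [btw_iff]; infer_instance

instance {n : ℕ} {t s u x : ∀ (M : Type) [SetStr M], (Fin n → M) → M} [UV t] [UV s] [UV u]
    [UV x] : UDf (fun M _ v => Btw (t M v) (s M v) (u M v) (x M v)) :=
  Btw_u.comp4 (R := fun _ _ a b c d => Btw a b c d) t s u x

theorem IsAnalytic_u : UDf (fun M _ (w : Fin 3 → M) => IsAnalytic (w 0) (w 1) (w 2)) := by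
  unfold IsAnalytic; infer_instance

instance {n : ℕ} {t s u : ∀ (M : Type) [SetStr M], (Fin n → M) → M} [UV t] [UV s] [UV u] :
    UDf (fun M _ v => IsAnalytic (t M v) (s M v) (u M v)) :=
  IsAnalytic_u.comp3 (R := fun _ _ a b c => IsAnalytic a b c) t s u

theorem NonFreeAnalyticGroup_u :
    UDf (fun M _ (w : Fin 0 → M) => NonFreeAnalyticGroup M) := by
  unfold NonFreeAnalyticGroup
  simp only [isRealNumbers_iff]
  infer_instance

/-- the sentence -/
theorem exists_sentence : ∃ φ : Fml 0, ∀ (N : Type) [SetStr N],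
    Sat (M := N) φ Fin.elim0 ↔ NonFreeAnalyticGroup N := by
  obtain ⟨f, hf⟩ := NonFreeAnalyticGroup_u.out
  exact ⟨f, fun N _ => (hf N Fin.elim0).symm⟩

end AO
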