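import Pool.Agent.H98.AO.All1
import Pool.Agent.H98.AO.CFA
import Pool.Agent.H98.AO.CCB
import Pool.Agent.H98.AO.Sent
import Pool.Agent.H74.AO.HFinal
import Pool.Agent.H74.AO.DFO
import Pool.Agent.H74.AO.GLU
import Pool.Agent.H74.AO.KLA
import Pool.Agent.H36.AO.KLC
import Pool.Agent.H36.AO.PMain
import Pool.Agent.H64.AO.ABS
import Pool.Agent.H64.AO.EVF
import Pool.Agent.H4.AO.AMB
import Pool.Agent.H4.AO.AMO
import Pool.Agent.H4.AO.GNR
import Pool.Agent.H4.AO.KLB
import Pool.Agent.H94.AO.BDX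
import Pool.Agent.H94.AO.BSG
import Pool.Agent.H94.AO.CSU
import Pool.Agent.H94.AO.CVC
import Pool.Agent.H94.AO.NAM
import Pool.Agent.H29.AO.COW
import Pool.Agent.H29.AO.CPR
import Pool.Agent.H29.AO.KLD
import Pool.Agent.H31.AO.DXN
import Pool.Agent.H31.AO.GCF
import Pool.Agent.H31.AO.LEP
import Pool.Agent.H31.AO.SEP
import Pool.Agent.H31.AO.UPS
import Pool.Agent.H46.AO.FUL
import Pool.Agent.H46.AO.STP
import Pool.Agent.H46.AO.TOP
import Pool.Agent.H46.AO.VSZ
import Pool.Agent.H21.AO.GFD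
import Pool.Agent.H21.AO.GFE
import Pool.Agent.H21.AO.QGN
import Pool.Agent.H21.AO.STF
import Pool.Agent.H21.AO.XFC
import Pool.Agent.H17.AO.KCA
import Pool.Agent.H17.AO.RSF
import Pool.Agent.H51.AO.OKV
import Pool.Agent.H51.AO.TRU
import Pool.Agent.H51.AO.VLF

/-!
AO: assembly of all modules.
-/

set_option linter.unusedVariables false
set_option synthInstance.maxSize 100000

namespace AO

open SW

theorem u_zdx : ZDXStmt := hf_zd

namespace BP

theorem v_cvc : CVCStmt := ao_cvc u_cbt u_acf u_chs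
theorem v_cpr : CPRStmt := ao_cpr v_cvc u_szf u_alf
theorem v_cow : COWStmt := ao_cow v_cpr v_cvc u_szf u_alf
theorem v_evf : EVFStmt := ao_evf nux
theorem v_dxn : DXNStmt := ao_dxn ao_lep ao_ups
theorem v_sep : SEPStmt := ao_sep ao_lep ao_ups
theorem v_amb : AMBStmt := ao_amb ao_lep v_dxn v_sep ao_amo
theorem v_cfa : CFAStmt := ao_cfa ao_stf ao_lep v_amb
theorem v_ccb : CCBStmt := ao_ccb u_tmf u_del u_cbt
theorem v_bsg : BSGStmt := ao_bsg u_alf u_cbt
theorem v_nam : NAMStmt := ao_nam u_maxa u_cbt u_chs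
theorem v_csu : CSUStmt := ao_csu v_nam v_evf v_cfa u_cbt
theorem v_gfd : GFDStmt := ao_gfd ao_stf
theorem v_gfe : GFEStmt := ao_gfe ao_stf v_gfd ao_lep
theorem v_glu : GLUStmt := ao_glu u_chs u_cbt
theorem v_gnr : GNRStmt := ao_gnr v_dxn
theorem v_bdx : BDXStmt := ao_bdx v_gnr v_cvc v_cpr ao_abs nux
theorem v_vlf : VLFStmt := ao_vlf ao_gcf
theorem v_tru : TRUStmt := ao_tru ao_gcf v_vlf
theorem v_okv : OKVStmt := ao_okv v_vlf ao_dfo
theorem v_kla : KLAStmt := ao_kla ao_gcf v_vlf ao_dfo v_tru ao_kca ao_qgn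
theorem v_klb : KLBStmt := ao_klb ao_gcf v_vlf v_okv ao_kcb
theorem v_klc : KLCStmt := ao_klc v_klb v_tru ao_rsf ao_xfc v_cfa u_dth v_csu v_cpr v_evf ao_abs
  ao_dfo ao_stf u_cbt v_okv nux
theorem v_kld : KLDStmt := ao_kld v_kla v_evf ao_ful ao_xfc v_cfa
theorem v_stp : STPStmt := ao_stp v_glu v_csu v_klc v_kld v_evf ao_abs v_cpr
theorem v_top : TOPStmt := ao_top v_csu v_cow u_szf u_tmf v_evf v_cfa u_chs
theorem v_vsz : VSZStmt := ao_vsz u_cbn u_szf v_cpr v_evf v_csu v_cfa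
theorem v_pmain : PMAINStmt := p_main std wfx nux u_zdx u_chn v_gfe v_cfa v_ccb v_bdx v_top v_stp
  v_vsz v_bsg v_evf

end BP

/-- **There is a countable transitive model of ZFC with an abelian group which is the union of an
increasing continuous chain of length omega one of countable free subgroups, has a basis analytic
set of relations and is not free** -/
theorem main :
    ∃ (N : Type) (_ : SetStr N) (_ : ZFC N), Countable N ∧
      WellFounded (fun x y : N => E x y) ∧ NonFreeAnalyticGroup N :=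
  asm1 BP.v_pmain hgr_all

end AO
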