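import Pool.Agent.H98.AO.Asm
import Pool.Agent.H12.MA.WO
import Pool.Agent.H12.MA.ZORN
import Pool.Agent.H12.MA.DEL
import Pool.Agent.H13.MA.Stmts
import Pool.Agent.H2.MA.SEQ
import Pool.Agent.H2.CT.BIT
import Pool.Agent.H8.MA.BIG
import Pool.Agent.H23.MA.MAXA
import Pool.Agent.H35.MA.ACF
import Pool.Agent.H35.MA.ACX
import Pool.Agent.H36.MA.W0
import Pool.Agent.H93.MA.CBA
import Pool.Agent.H93.MA.CBT
import Pool.Agent.H31.CC.CHS
import Pool.Agent.H33.AO.ADD
import Pool.Agent.H33.AO.DIQ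
import Pool.Agent.H83.AO.ALF
import Pool.Agent.H83.AO.CLT
import Pool.Agent.H83.AO.SZF
import Pool.Agent.H83.AO.TMF
import Pool.Agent.H72.AO.ALW
import Pool.Agent.H72.AO.CHF
import Pool.Agent.H72.AO.DTH
import Pool.Agent.H72.AO.SZA
import Pool.Agent.H17.AO.ALX
import Pool.Agent.H17.AO.LEX
import Pool.Agent.H53.AO.CBN
import Pool.Agent.H53.AO.CHN
import Pool.Agent.H53.AO.CLN
import Pool.Agent.H64.AO.CHA
import Pool.Agent.H64.AO.UNX
import Pool.Agent.H51.AO.CHQ
import Pool.Agent.H51.AO.EMX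
import Pool.Agent.H51.AO.NFE
import Pool.Agent.H51.AO.NFP
import Pool.Agent.H87.AO.FRX
import Pool.Agent.H87.AO.GPI
import Pool.Agent.H8.AO.FSU
import Pool.Agent.H8.AO.GFR
import Pool.Agent.H8.AO.VSG
import Pool.Agent.H46.AO.FUP
import Pool.Agent.H46.AO.GEN
import Pool.Agent.H46.AO.NF1
import Pool.Agent.H46.AO.TRV
import Pool.Agent.H21.AO.GFS
import Pool.Agent.H21.AO.GRI
import Pool.Agent.H21.AO.GXI
import Pool.Agent.H21.AO.NF2
import Pool.Agent.H31.AO.GOB
import Pool.Agent.H31.AO.GRR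
import Pool.Agent.H31.AO.GRU
import Pool.Agent.H31.AO.NSX
import Pool.Agent.H31.AO.PRX
import Pool.Agent.H31.AO.RFG
import Pool.Agent.H9.AO.HES
import Pool.Agent.H65.AO.HNX
import Pool.Agent.H65.AO.STP
import Pool.Agent.H47.AO.IBS
import Pool.Agent.H47.AO.KAP
import Pool.Agent.H47.AO.NFD
import Pool.Agent.H47.AO.VOX
import Pool.Agent.H47.AO.WOX
import Pool.Agent.H20.AO.LRG
import Pool.Agent.H3.AO.NCL
import Pool.Agent.H3.AO.NSI
import Pool.Agent.H3.AO.RGA
import Pool.Agent.H13.AO.WFX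
import Pool.Agent.H13.AO.ZFW
import Pool.Agent.H94.AO.QAsm
import Pool.Agent.H93.AO.RGB
import Pool.Agent.H94.AO.TGX
import Pool.Agent.H94.AO.TMX
import Pool.Agent.H94.AO.WSQ
import Pool.Agent.H93.AO.QFN
import Pool.Agent.H40.AO.ZFV

/-!
AO: assembly of the modules of the set theory part, of the group part and of the template forcing.
-/

set_option linter.unusedVariables false
set_option synthInstance.maxSize 100000

namespace AO

open SW

theorem u_acf : ACFStmt := ma_acf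
theorem u_wo : WOStmt := ma_wo u_acf
theorem u_zorn : ZORNStmt := ma_zorn u_acf
theorem u_cbt : CBTStmt := ma_cbt u_acf
theorem u_seq : SEQStmt := ma_seq u_acf u_cbt
theorem u_del : DELStmt := ma_del u_seq u_cbt ma_w0
theorem u_maxa : MAXAStmt := ma_maxa u_zorn
theorem u_wf : WFStmt := ma_wf u_cbt
theorem u_acx : ACXStmt := ma_acx u_wo
theorem u_chs : CC.CHSStmt := CC.cc_chs u_acf
theorem u_bit : BITStmt := ct_bit (ma_big u_acf)

theorem u_alf : ALFStmt := alf
theorem u_hes : HESStmt := hes u_alf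
theorem u_sza : SZAStmt := sza u_alf
theorem u_szf : SZFStmt := szf u_alf u_hes u_sza
theorem u_rga : RGAStmt := rga u_alf u_szf
theorem u_cbn : CBNStmt := cbn u_alf u_szf u_rga
theorem u_alw : ALWStmt := alw u_alf
theorem u_cln : CLNStmt := cln u_szf
theorem u_tmf : TMFStmt := tmf u_alf u_szf u_cln
theorem u_dth : DTHStmt := dth clt u_tmf
theorem u_chn : CHNStmt := chn u_alf u_szf u_cln u_rga
theorem u_zfw : ZFWStmt := zfw zfv

theorem u_gob : GOBStmt := gob grr gru
theorem u_fup : FUPStmt := fup rfg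
theorem u_nf1 : NF1Stmt := nf1 u_fup
theorem u_nf2 : NF2Stmt := nf2 grr gru
theorem u_nfp : NFPStmt := nfp grr u_nf1 u_nf2

theorem u_ghm : GHMStmt := ghm gpi gpg
theorem u_ncl : NCLStmt := ncl gen
theorem u_nsi : NSIStmt := nsi nsx trv gpi gpj
theorem u_vsg : VSGStmt := vsg gen gpi gpg u_ghm
theorem u_kap : KAPStmt := kap vox
theorem u_ibs : IBSStmt := ibs vox
theorem u_gfr : GFRStmt := gfr std wox vox u_kap u_ibs u_gob u_ghm
theorem u_fri : FRIStmt := fri gpi gpg gen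
theorem u_frx : FRXStmt := frx gpi gpj gpg gen rfg
theorem u_fsu : FSUStmt := fsu gen
theorem u_nfe : NFEStmt := nfe gen u_ncl u_fsu nfd u_nfp u_ghm vox gpi
theorem u_smf : SMFStmt := asm_smf std u_szf u_alw u_vsg u_gfr u_nsi u_fri

theorem u_lrg : LRGStmt := lrg u_bit u_acf u_chs
theorem u_lex : LEXStmt := lex hnx u_lrg u_alf
theorem u_rgb : RGBStmt := rgb u_cbt
theorem u_chq : CHQStmt := chq u_chs u_rgb
theorem u_cha : CHAStmt := cha u_chq u_acf
theorem u_diq : DIQStmt := diq u_cha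
theorem u_qfn : QFNStmt := qfn u_diq
theorem u_prx : PRXStmt := prx u_qfn u_cbt
theorem u_alx : ALXStmt := alx u_qfn emx
theorem u_rgx : RGXStmt := rgx u_qfn u_prx u_alx u_alf
theorem u_tgx : TGXStmt := tgx emx u_rgb
theorem u_stp : STPStmt := stp u_diq u_rgb
theorem u_wsq : WSQStmt := wsq u_cha u_stp u_rgb u_cbt u_wf u_chs
theorem u_add : ADDStmt := add u_chs
theorem u_unx : UNXStmt := unx u_wsq u_add u_tgx u_prx u_rgb
theorem u_tmx : TMXStmt := tmx u_rgx u_prx u_tgx u_unx emx u_rgb u_alf u_cbt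
theorem u_qmain : QMAINStmt := qasm u_lex qfx emx u_prx u_alx u_tmx

/-- the assembly of everything but the ccc forcing and the Borel part -/
theorem asm1 (pmain : PMAINStmt) (hgr : HGRStmt) :
    ∃ (N : Type) (_ : SetStr N) (_ : ZFC N), Countable N ∧
      WellFounded (fun x y : N => E x y) ∧ NonFreeAnalyticGroup N :=
  asm u_zfw wfx std nux chf u_acx u_qmain pmain hgr u_smf u_ghm u_frx u_nfe

end AO
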