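import Pool.Agent.H98.AO.GStmts

/-!
Assembly: the theorem from the statements of the blocks.
-/

set_option linter.unusedVariables false
set_option linter.unusedSectionVars false
set_option synthInstance.maxSize 100000

namespace AO

open SW

theorem asm_sup (szf : SZFStmt) : SUPStmt := by
  intro N _ _ c m L h hGD n H hH hn
  obtain ⟨f, hf, hfa⟩ := hGD.vs
  refine ⟨sUn (img H f), ?_, ?_, ?_⟩
  · intro v hv
    rw [mem_sUn] at hv
    obtain ⟨y, hy, hvy⟩ := hv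
    rw [mem_img' hf] at hy
    obtain ⟨a, ha, rfl⟩ := hy
    exact (hfa a (hH a ha)).2.1 v hvy
  · refine (szf N).iUn n H f hf hn fun a ha => ?_
    exact (szf N).mono 0 n _ (Nat.zero_le _) (((szf N).cb _).2 (hfa a (hH a ha)).1)
  · intro a ha
    refine Subgroup.closure_mono ?_ (hfa a (hH a ha)).2.2
    have hsub : VX (f a) ⊆ VX (sUn (img H f)) := by
      rintro v ⟨x, hx, hxv, hm⟩
      refine ⟨x, hx, hxv, ?_⟩
      rw [mem_sUn]
      exact ⟨f a, (mem_img' hf).2 ⟨a, ha, rfl⟩, hm⟩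
    rintro g (⟨v, s, hv, rfl⟩ | ⟨y, w, k, hy, hw, rfl⟩)
    · exact Or.inl ⟨v, s, hsub hv, rfl⟩
    · exact Or.inr ⟨y, w, k, hsub hy, hsub hw, rfl⟩

theorem VX_mono {N : Type} [SetStr N] [ZF N] {V V' : N} (h : Sub V V') : VX V ⊆ VX V' := by
  rintro v ⟨x, hx, hxv, hm⟩
  exact ⟨x, hx, hxv, h _ hm⟩

theorem GV_mono {Z : Rl → Rl → Prop} {V V' : Set Vx} (h : V ⊆ V') : GV Z V ≤ GV Z V' := by
  refine Subgroup.closure_mono ?_
  rintro g (⟨v, s, hv, rfl⟩ | ⟨y, w, k, hy, hw, rfl⟩)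
  · exact Or.inl ⟨v, s, h hv, rfl⟩
  · exact Or.inr ⟨y, w, k, h hy, h hw, rfl⟩

theorem asm_smf (std : STDStmt) (szf : SZFStmt) (alw : ALWStmt) (vsg : VSGStmt) (gfr : GFRStmt)
    (nsi : NSIStmt) (fri : FRIStmt) : SMFStmt := by
  obtain ⟨R1, h1⟩ := vsg
  obtain ⟨R2, h2⟩ := gfr
  refine ⟨fun i => if i % 2 = 0 then R1 (i / 2) else R2 (i / 2), ?_⟩
  intro N _ _ hW hR hZD c m L h hGD hgood H hH hHm hsmall
  have hS : Std N := std N hW
  have hR1 : ∀ i, Has N (R1 i) := fun i => by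
    have := hR (2 * i)
    simpa using this
  have hR2 : ∀ i, Has N (R2 i) := fun i => by
    have := hR (2 * i + 1)
    have h3 : (2 * i + 1) % 2 ≠ 0 := by omega
    have h4 : (2 * i + 1) / 2 = i := by omega
    simpa [h3, h4] using this
  obtain ⟨n, hn⟩ := alw N H hS hsmall
  obtain ⟨V', hV', hVn, hVH⟩ := asm_sup szf N c m L h hGD n H hH hn
  obtain ⟨V, W, hVV, hV, hGW⟩ := hgood n V' hV' hVn
  obtain ⟨H0, hH0, hH0m⟩ := h1 N hS hR1 c m L h hGD V hV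
  obtain ⟨B, hB⟩ := h2 N hW hR2 hZD c m L h hGD V W H0 hV hGW hH0 hH0m
  have hsub : Incl H H0 := fun a ha => (hH0.2 a (hH a ha)).2
    (GV_mono (VX_mono hVV) (hVH a ha))
  obtain ⟨B', hB'⟩ := nsi N hS H0 m B H hH0m hB hsub hHm
  exact ⟨B', fri N hS H m B' hHm hB'⟩

instance {M : Type} [SetStr M] [ZF M] [Countable M] (F : FPoset M) (G : M → Prop) :
    Countable (Ext F G) := inferInstanceAs (Countable (Quot _))

theorem has_pair {N : Type} [SetStr N] [ZF N] {R : ℕ → ℕ → Set (Fin 5 → ℕ)}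
    (h : ∀ i, Has N (R (Nat.unpair i).1 (Nat.unpair i).2)) (a : ℕ) : ∀ i, Has N (R a i) :=
  fun i => by simpa using h (Nat.pair a i)

/-- the theorem from the statements -/
theorem asm (zfw : ZFWStmt) (wfx : WFXStmt) (std : STDStmt) (nux : NUXStmt) (chf : CHFStmt)
    (acx : ACXStmt) (qmain : QMAINStmt) (pmain : PMAINStmt) (hgr : HGRStmt) (smf : SMFStmt)
    (ghm : GHMStmt) (frx : FRXStmt) (nfe : NFEStmt) :
    ∃ (N : Type) (_ : SetStr N) (_ : ZFC N), Countable N ∧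
      WellFounded (fun x y : N => E x y) ∧ NonFreeAnalyticGroup N := by
  obtain ⟨R1, h1⟩ := pmain
  obtain ⟨R2, h2⟩ := hgr
  obtain ⟨R3, h3⟩ := smf
  obtain ⟨M, _, _, _, hW, hR⟩ := zfw (fun i => (fun a => if a = 0 then R1 else if a = 1 then R2
    else R3) (Nat.unpair i).1 (Nat.unpair i).2)
  have hRp := has_pair (R := fun a => if a = 0 then R1 else if a = 1 then R2 else R3) hR
  have k1 : ∀ i, Has M (R1 i) := by simpa using hRp 0
  have k2 : ∀ i, Has M (R2 i) := by simpa using hRp 1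
  have k3 : ∀ i, Has M (R3 i) := by simpa using hRp 2
  obtain ⟨F, G, hG, hCH⟩ := chf M
  haveI : ZFC (Ext F G) := acx M F G hG
  have hCH := hCH
  have w1 : WFd (Ext F G) := wfx M F G hG hW
  have n1 := nux M F G hG
  obtain ⟨F2, G2, hG2, hQ⟩ := qmain (Ext F G) hCH
  haveI : ZFC (Ext F2 G2) := acx _ F2 G2 hG2
  obtain ⟨hCH2, l, T, hT⟩ := hQ
  have w2 : WFd (Ext F2 G2) := wfx _ F2 G2 hG2 w1
  have n2 := nux _ F2 G2 hG2
  obtain ⟨F3, G3, hG3, hP⟩ := h1 (Ext F2 G2) w2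
    (fun i => n2.has _ (n1.has _ (k1 i))) hCH2 l T hT
  haveI : ZFC (Ext F3 G3) := acx _ F3 G3 hG3
  have w3 : WFd (Ext F3 G3) := wfx _ F3 G3 hG3 w2
  have n3 := nux _ F3 G3 hG3
  have hPF : PF0 (Ext F3 G3) := hP
  obtain ⟨hZD, c, P, Q, L, z, u, m, h, hR, hGD⟩ := h2 (Ext F3 G3) w3
    (fun i => n3.has _ (n2.has _ (n1.has _ (k2 i))))
  refine ⟨Ext F3 G3, inferInstance, inferInstance, inferInstance, w3,
    CUR.KS c, P, Q, L, z, u, m, hR, (ghm _ c m L h hGD).1, hGD.ana, ?_, ?_⟩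
  · exact h3 (Ext F3 G3) w3 (fun i => n3.has _ (n2.has _ (n1.has _ (k3 i)))) hZD c m L h hGD
      hPF.good
  · rintro ⟨B, hB⟩
    obtain ⟨l, T, y, w, hbad⟩ := hPF.bad
    exact nfe _ (std _ w3) c m L h hGD l T y w B hbad
      (frx _ (std _ w3) _ m B (ghm _ c m L h hGD).1 hB)

end AO
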