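import Pool.Agent.H13.MA.Core

/-!
The definitions used in the statement of the theorem about analytic groups: functions,
cardinalities below aleph omega, groups, free groups, analytic sets, all inside a structure `N`
for the membership relation. (The structure, the axioms of ZFC, ordered pairs, the set of natural
numbers and copies of the real numbers are defined in `SW`.)
-/

namespace AO

open SW

section
variable {N : Type} [SetStr N]

/-- `f` is a function from `a` to `b` -/
def IsFunction (f a b : N) : Prop := (∀ z, E z f → ∃ x y, E x a ∧ E y b ∧ IsOP z x y) ∧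
  ∀ x, E x a → ∃ y, PairIn x y f ∧ ∀ y', PairIn x y' f → y' = y

/-- there is an injective function from `a` to `b` -/
def Injects (a b : N) : Prop := ∃ f, IsFunction f a b ∧
  ∀ x x' y, PairIn x y f → PairIn x' y f → x = x'

/-- `a` is an ordinal: a transitive set of transitive sets -/
def IsOrdinal (a : N) : Prop := (∀ y, E y a → Incl y a) ∧ ∀ y, E y a → ∀ z, E z y → Incl z y

/-- `b` is the least ordinal which does not inject into `a` -/
def IsNextCardinal (a b : N) : Prop := IsOrdinal b ∧ ¬ Injects b a ∧ ∀ c, E c b → Injects c a

/-- `x` has cardinality less than aleph omega: `x` injects into the cardinal aleph `n` for a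
natural number `n`, where `f` is the function `k ↦ aleph k`, for `k = 0, ..., n` -/
def BelowAlephOmega (x : N) : Prop := ∃ w n f, IsOmega w ∧ E n w ∧
  (∀ k, E k n ∨ k = n → ∃ a, PairIn k a f ∧ ∀ a', PairIn k a' f → a' = a) ∧
  (∀ e, (∀ t, ¬ E t e) → PairIn e w f) ∧
  (∀ k s a b, E k n → (∀ t, E t s ↔ E t k ∨ t = k) → PairIn k a f → PairIn s b f →
    IsNextCardinal a b) ∧
  ∃ a, PairIn n a f ∧ Injects x a

/-- `G` with the operation `m` (a set of triples `((a, b), c)`) is a group -/
def IsGroup (G m : N) : Prop := IsOperation G m ∧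
  (∀ a b c x y s, E a G → E b G → E c G → Trp a b x m → Trp x c s m → Trp b c y m →
    Trp a y s m) ∧
  ∃ e, E e G ∧ (∀ a, E a G → Trp e a a m ∧ Trp a e a m) ∧
    ∀ a, E a G → ∃ b, E b G ∧ Trp a b e m ∧ Trp b a e m

/-- `h` is a homomorphism from the group `(G, m)` to the group `(K, k)` -/
def IsHom (G m K k h : N) : Prop := IsFunction h G K ∧
  ∀ a b c x y z, E a G → E b G → E c G → Trp a b c m → PairIn a x h → PairIn b y h →
    PairIn c z h → Trp x y z k

/-- `B` is a basis of the group `(G, m)`: every function from `B` to a group `(K, k)` extends to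
exactly one homomorphism from `(G, m)` to `(K, k)` -/
def IsBasis (G m B : N) : Prop := Incl B G ∧ ∀ K k f, IsGroup K k → IsFunction f B K →
  ∃ h, (IsHom G m K k h ∧ Incl f h) ∧ ∀ h', IsHom G m K k h' → Incl f h' → h' = h

/-- the group `(G, m)` is free -/
def IsFree (G m : N) : Prop := ∃ B, IsBasis G m B

/-- `b` is strictly between `a` and `c` in the linear order `L` (a set of pairs) -/
def Btw (L a b c : N) : Prop := PairIn a b L ∧ a ≠ b ∧ PairIn b c L ∧ b ≠ c

/-- `m` is an analytic subset of `R × R × R`, where `R` is a copy of the real numbers with the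
order `L`: it is a set of triples `((x, y), z)`, and there is a closed subset `C` of
`(R × R × R) × S`, where `S` is the space of all functions `u` from the set `o` of natural numbers
to itself, such that `m` is the projection of `C`. (Closed: if `(((x, y), z), u)` is not in `C`
then this also holds for all `x'`, `y'`, `z'` in suitable open intervals around `x`, `y`, `z` and
all `u'` which agree with `u` below a suitable natural number `n`.) -/
def IsAnalytic (R L m : N) : Prop :=
  (∀ t, E t m → ∃ x y z p, E x R ∧ E y R ∧ E z R ∧ IsOP p x y ∧ IsOP t p z) ∧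
  ∃ o C, IsOmega o ∧
    (∀ x y z, E x R → E y R → E z R → (Trp x y z m ↔
      ∃ u p q, IsFunction u o o ∧ IsOP p x y ∧ IsOP q p z ∧ PairIn q u C)) ∧
    ∀ x y z u, E x R → E y R → E z R → IsFunction u o o →
      (¬ ∃ p q, IsOP p x y ∧ IsOP q p z ∧ PairIn q u C) →
      ∃ a a' b b' c c' n, E a R ∧ E a' R ∧ E b R ∧ E b' R ∧ E c R ∧ E c' R ∧ E n o ∧
        Btw L a x a' ∧ Btw L b y b' ∧ Btw L c z c' ∧
        ∀ x' y' z' u', E x' R → E y' R → E z' R → IsFunction u' o o →
          Btw L a x' a' → Btw L b y' b' → Btw L c z' c' →
          (∀ k j, E k n → (PairIn k j u ↔ PairIn k j u')) →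
          ¬ ∃ p q, IsOP p x' y' ∧ IsOP q p z' ∧ PairIn q u' C

end

/-- In `N` there is a copy `R` of the real numbers and a group operation `m` on the set `R` whose
graph is an analytic subset of `R × R × R`, such that all subgroups of cardinality less than
aleph omega are free, but the group is not free. -/
def NonFreeAnalyticGroup (N : Type) [SetStr N] : Prop :=
  ∃ R P Q L z u m : N, IsRealNumbers R P Q L z u ∧ IsGroup R m ∧ IsAnalytic R L m ∧
    (∀ H, Incl H R → IsGroup H m → BelowAlephOmega H → IsFree H m) ∧ ¬ IsFree R m

end AO
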