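import Pool.Agent.H98.AO.Rel
import Mathlib.Data.Set.Finite.Basic
import Mathlib.GroupTheory.FreeGroup.Basic
import Mathlib.GroupTheory.QuotientGroup.Basic
import Mathlib.Algebra.Group.Subgroup.Basic
import Mathlib.GroupTheory.PGroup

/-!
The group of a relation `Z` between infinite 0-1-sequences. Vertices are pairs `(i, X)`; the
group has generators `x (v, s)` for vertices `v` and strings `s`, and `t (Y, W, n)` for the edges
`(Y, W)` of `Z`, with the relations `t n = t (n+1) ^ 2 * x ((0, Y), W|(n+1)) * x ((1, W), Y|(n+1))`.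
-/

namespace AO

/-- vertices -/
abbrev Vx := Bool × Rl

/-- generators -/
abbrev Gn := (Vx × Str) ⊕ (Rl × Rl × ℕ)

/-- letters of a fixed level -/
abbrev Ltr := (Vx × Str) ⊕ (Rl × Rl)

/-- the generator `t (y, w, m - k)` on level `m` -/
def tau (y w : Rl) (m : ℕ) : ℕ → FreeGroup Ltr
  | 0 => FreeGroup.of (Sum.inr (y, w))
  | k + 1 => tau y w m k ^ 2 * FreeGroup.of (Sum.inl ((false, y), str w (m - k))) *
      FreeGroup.of (Sum.inl ((true, w), str y (m - k)))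

open Classical in
/-- the value of a generator on level `m` -/
noncomputable def lev (Z : Rl → Rl → Prop) (m : ℕ) : Gn → FreeGroup Ltr
  | Sum.inl v => FreeGroup.of (Sum.inl v)
  | Sum.inr (y, w, n) => if Z y w then tau y w m (m - n) else 1

/-- words which are trivial on all high levels -/
noncomputable def Tv (Z : Rl → Rl → Prop) : Subgroup (FreeGroup Gn) where
  carrier := {g | ∃ m0, ∀ m, m0 ≤ m → FreeGroup.lift (lev Z m) g = 1}
  mul_mem' := by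
    rintro a b ⟨m, hm⟩ ⟨k, hk⟩
    refine ⟨max m k, fun n hn => ?_⟩
    rw [map_mul, hm n (le_trans (le_max_left _ _) hn), hk n (le_trans (le_max_right _ _) hn),
      one_mul]
  one_mem' := ⟨0, fun m _ => map_one _⟩
  inv_mem' := by
    rintro a ⟨m, hm⟩
    exact ⟨m, fun n hn => by rw [map_inv, hm n hn, inv_one]⟩

instance Tv_normal (Z : Rl → Rl → Prop) : (Tv Z).Normal := by
  constructor
  rintro a ⟨m, hm⟩ g
  exact ⟨m, fun n hn => by rw [map_mul, map_mul, hm n hn, map_inv, mul_one, mul_inv_cancel]⟩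

/-- the group of the relation `Z` -/
abbrev Gr (Z : Rl → Rl → Prop) : Type := FreeGroup Gn ⧸ Tv Z

variable (Z : Rl → Rl → Prop)

/-- the generators `x` -/
noncomputable def GX (v : Vx) (s : Str) : Gr Z := QuotientGroup.mk (FreeGroup.of (Sum.inl (v, s)))

/-- the generators `t` -/
noncomputable def GT (y w : Rl) (n : ℕ) : Gr Z := QuotientGroup.mk (FreeGroup.of (Sum.inr (y, w, n)))

/-- the generators with vertices in `V` -/
def GS (V : Set Vx) : Set (Gr Z) :=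
  {g | (∃ v s, v ∈ V ∧ g = GX Z v s) ∨
    ∃ y w n, (false, y) ∈ V ∧ (true, w) ∈ V ∧ g = GT Z y w n}

/-- the subgroup of the vertices in `V` -/
noncomputable def GV (V : Set Vx) : Subgroup (Gr Z) := Subgroup.closure (GS Z V)

/-- `B` is a free basis of the subgroup `H` -/
def FB {G : Type*} [Group G] (B : Set G) (H : Subgroup G) : Prop :=
  Function.Injective (FreeGroup.lift (fun b : B => (b : G))) ∧ Subgroup.closure B = H

/-- `x`, `t` satisfy the relations for the vertices in `V` -/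
structure Rls (V : Set Vx) {K : Type} [Group K] (x : Vx → Str → K) (t : Rl → Rl → ℕ → K) :
    Prop where
  rel : ∀ y w n, (false, y) ∈ V → (true, w) ∈ V → Z y w →
    t y w n = t y w (n + 1) ^ 2 * x (false, y) (str w (n + 1)) * x (true, w) (str y (n + 1))
  one : ∀ y w n, (false, y) ∈ V → (true, w) ∈ V → ¬ Z y w → t y w n = 1

/-! ### statements -/

/-- GRR: the relations hold -/
def GRRStmt : Prop := ∀ Z : Rl → Rl → Prop, Rls Z Set.univ (GX Z) (GT Z) ∧ GV Z Set.univ = ⊤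

/-- GRU: the universal property of the subgroups -/
def GRUStmt : Prop := ∀ (Z : Rl → Rl → Prop) (V : Set Vx) (K : Type) [Group K]
  (x : Vx → Str → K) (t : Rl → Rl → ℕ → K), Rls Z V x t → ∃ f : GV Z V →* K,
    (∀ v s (h : GX Z v s ∈ GV Z V), v ∈ V → f ⟨GX Z v s, h⟩ = x v s) ∧
    ∀ y w n (h : GT Z y w n ∈ GV Z V), (false, y) ∈ V → (true, w) ∈ V →
      f ⟨GT Z y w n, h⟩ = t y w n

/-- GRI: intersections of the subgroups -/
def GRIStmt : Prop := ∀ (Z : Rl → Rl → Prop) (V W : Set Vx), GV Z V ⊓ GV Z W = GV Z (V ∩ W)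

/-- GXI: the generators `x` are different -/
def GXIStmt : Prop := ∀ (Z : Rl → Rl → Prop) (v v' : Vx) (s s' : Str),
  GX Z v s = GX Z v' s' → v = v' ∧ s = s'

/-- GFS: finite supports -/
def GFSStmt : Prop := ∀ (Z : Rl → Rl → Prop) (V : Set Vx) (g : Gr Z), g ∈ GV Z V →
  ∃ F : Finset Vx, ↑F ⊆ V ∧ g ∈ GV Z ↑F

/-- the edge `(y, w)` is assigned to its later vertex in the order `r`: the string of the earlier
vertex of length `n + 1`, for `n ≥ κ y w`, is used by the later vertex -/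
def Used (V : Set Vx) (r : Vx → Vx → Prop) (κ : Rl → Rl → ℕ) (v : Vx) (s : Str) : Prop :=
  ∃ y w n, (false, y) ∈ V ∧ (true, w) ∈ V ∧ Z y w ∧ κ y w ≤ n ∧
    ((r (true, w) (false, y) ∧ v = (false, y) ∧ s = str w (n + 1)) ∨
      (r (false, y) (true, w) ∧ v = (true, w) ∧ s = str y (n + 1)))

/-- the basis given by a good order -/
def Bas (V : Set Vx) (r : Vx → Vx → Prop) (κ : Rl → Rl → ℕ) : Set (Gr Z) :=
  {g | (∃ v s, v ∈ V ∧ ¬ Used Z V r κ v s ∧ g = GX Z v s) ∨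
    ∃ y w n, (false, y) ∈ V ∧ (true, w) ∈ V ∧ Z y w ∧ κ y w ≤ n ∧ g = GT Z y w n}

/-- GOB: a good order gives a basis -/
def GOBStmt : Prop := ∀ (Z : Rl → Rl → Prop) (V : Set Vx) (r : Vx → Vx → Prop)
  (κ : Rl → Rl → ℕ), (∀ S : Set Vx, S ⊆ V → S.Nonempty → ∃ v ∈ S, ∀ v' ∈ S, ¬ r v' v) →
  (∀ v ∈ V, ∀ v' ∈ V, v ≠ v' → r v v' ∨ r v' v) →
  (∀ v ∈ V, ∀ v' ∈ V, r v v' → ¬ r v' v) →
  (∀ u ∈ V, ∀ v ∈ V, ∀ v' ∈ V, r u v → r v v' → r u v') →
  (∀ y w w' n, (false, y) ∈ V → (true, w) ∈ V → (true, w') ∈ V → Z y w → Z y w' →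
    r (true, w) (false, y) → r (true, w') (false, y) → κ y w ≤ n → κ y w' ≤ n →
    str w (n + 1) = str w' (n + 1) → w = w') →
  (∀ y y' w n, (false, y) ∈ V → (false, y') ∈ V → (true, w) ∈ V → Z y w → Z y' w →
    r (false, y) (true, w) → r (false, y') (true, w) → κ y w ≤ n → κ y' w ≤ n →
    str y (n + 1) = str y' (n + 1) → y = y') →
  FB (Bas Z V r κ) (GV Z V)

/-- FUP: uniqueness of solutions in free groups -/
def FUPStmt : Prop := ∀ (X : Type) (a y z : ℕ → FreeGroup X),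
  (∀ n, y n = y (n + 1) ^ 2 * a n) → (∀ n, z n = z (n + 1) ^ 2 * a n) → y = z

/-- NF1: quotients by a part of the basis -/
def NF1Stmt : Prop := ∀ (G : Type) [Group G] (B B0 B1 : Set G) (t x z : ℕ → G), FB B ⊤ →
  B0 ⊆ B → B1 ⊆ B → (∀ n, t n = t (n + 1) ^ 2 * x n * z n) →
  (∀ n, x n ∈ Subgroup.closure (B0 ∪ B1)) → (∀ n, z n ∈ Subgroup.closure B0) →
  ∃ a ∈ Subgroup.closure B1, t 0 * a⁻¹ ∈ Subgroup.normalClosure B0

/-- NF2: a homomorphism which separates the `t (y, w, 0)` -/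
def NF2Stmt : Prop := ∀ (Z : Rl → Rl → Prop) (y : Rl), ∃ (K : Type) (_ : Group K)
  (f : Gr Z →* K), (∀ V, (false, y) ∉ V → ∀ g ∈ GV Z V, f g = 1) ∧
    ∀ w w', Z y w → Z y w' → f (GT Z y w 0) = f (GT Z y w' 0) → w = w'

/-- NFP: the counting argument -/
def NFPStmt : Prop := ∀ (Z : Rl → Rl → Prop) (y : Rl) (G : Type) [Group G] (φ : G →* Gr Z)
  (B B0 B1 : Set G) (W : Set Rl) (t : Rl → ℕ → G) (x : Str → G) (z : Rl → Str → G),
  Function.Injective φ → FB B ⊤ → B0 ⊆ B → B1 ⊆ B →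
  (∀ b ∈ B0, ∃ V : Set Vx, (false, y) ∉ V ∧ φ b ∈ GV Z V) → (∀ w ∈ W, Z y w) →
  (∀ w ∈ W, ∀ n, φ (t w n) = GT Z y w n) → (∀ s, φ (x s) = GX Z (false, y) s) →
  (∀ w ∈ W, ∀ s, φ (z w s) = GX Z (true, w) s) → (∀ s, x s ∈ Subgroup.closure B1) →
  (∀ w ∈ W, ∀ s, z w s ∈ Subgroup.closure B0) →
  (∀ w ∈ W, ∃ a ∈ Subgroup.closure B1, t w 0 * a⁻¹ ∈ Subgroup.normalClosure B0) ∧
  ∀ w ∈ W, ∀ w' ∈ W, ∀ a, t w 0 * a⁻¹ ∈ Subgroup.normalClosure B0 →
    t w' 0 * a⁻¹ ∈ Subgroup.normalClosure B0 → w = w'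

/-- NSX: the Schreier basis of a subgroup `H`; `T` is a transversal of the cosets `H * g`, a tree -/
def NSXStmt : Prop := ∀ (G : Type) [Group G] (B : Set G) (H : Subgroup G) (T : Set G)
  (len : G → ℕ), FB B ⊤ → 1 ∈ T →
  (∀ t ∈ T, t ≠ 1 → ∃ t' ∈ T, len t' < len t ∧ ∃ b ∈ B, t = t' * b ∨ t' = t * b) →
  (∀ g, ∃ t ∈ T, g * t⁻¹ ∈ H) → (∀ t ∈ T, ∀ t' ∈ T, t * t'⁻¹ ∈ H → t = t') →
  FB {h | h ∈ H ∧ h ≠ 1 ∧ ∃ t ∈ T, ∃ b ∈ B, ∃ t' ∈ T, h = t * b * t'⁻¹} H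

/-- RFG: free groups are residually finite 2-groups -/
def RFGStmt : Prop := ∀ (X : Type) (g : FreeGroup X), g ≠ 1 →
  ∃ (K : Type) (_ : Group K) (_ : Finite K) (f : X → K), FreeGroup.lift f g ≠ 1 ∧
    {x | f x ≠ 1}.Finite ∧ IsPGroup 2 K

end AO
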