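import Pool.Agent.H93.CT.Stmts
import Pool.Agent.H94.CC.Defs
import Pool.Agent.H78.CUR.Stmts
import Pool.Agent.H98.AO.Grp
import Pool.Agent.H98.AO.Core

/-!
Definitions for the proof: standard models, alephs, the template, the two notions of forcing,
names of reals, good orders, internal groups.
-/

set_option linter.unusedVariables false
set_option linter.unusedSectionVars false
set_option synthInstance.maxSize 100000

namespace AO

open SW

/-! ### standard models -/

/-- membership is well-founded -/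
def WFd (N : Type) [SetStr N] : Prop := WellFounded (fun x y : N => E x y)

section
variable {N : Type} [SetStr N] [ZF N]

/-- the natural number `n` of the model -/
noncomputable abbrev nu (n : ℕ) : N := CUR.nu n

/-- the natural numbers are standard -/
def Std (N : Type) [SetStr N] [ZF N] : Prop := ∀ x : N, E x om → ∃ n : ℕ, x = nu n

/-- the model contains the relation `R` between natural numbers -/
def Has (N : Type) [SetStr N] [ZF N] (R : Set (Fin 5 → ℕ)) : Prop :=
  ∃ a : N, ∀ t : Fin 5 → ℕ, E (CUR.tupv 4 (fun i => nu (t i))) a ↔ t ∈ R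

open Classical in
/-- the infinite sequence coded by a subset of `om` -/
noncomputable def rb (x : N) : Rl := fun n => decide (E (nu n) x)

end

/-! ### alephs and sizes -/

section
variable {M : Type} [SetStr M] [ZF M]

/-- `w` is aleph `n` -/
def Alf : ℕ → M → Prop
  | 0, w => w = om
  | n + 1, w => Ord w ∧ ∃ v, Alf n v ∧ ¬ Img v w ∧ ∀ a, E a w → Img v a

theorem Alf_df : ∀ n : ℕ, Cl (fun w : M => Alf n w)
  | 0 => by simp only [Alf]; infer_instance
  | n + 1 => by
      have ih : Cl (fun w : M => Alf n w) := Alf_df n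
      have _ : ∀ {k : ℕ} {t : (Fin k → M) → M} [DfT t], Df (fun v => Alf n (t v)) :=
        fun {k} {t} ht => ih.comp1 ht
      simp only [Alf]
      infer_instance

instance {n k : ℕ} {t : (Fin k → M) → M} [ht : DfT t] : Df (fun v => Alf n (t v)) :=
  (Alf_df n).comp1 ht

/-- `x` has at most aleph `n` elements -/
def Sz (n : ℕ) (x : M) : Prop := ∃ w, Alf n w ∧ Img w x

theorem Sz_df (n : ℕ) : Cl (fun w : M => Sz n w) := by unfold Sz; infer_instance

instance {n k : ℕ} {t : (Fin k → M) → M} [ht : DfT t] : Df (fun v => Sz n (t v)) :=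
  (Sz_df n).comp1 ht

/-! ### the template -/

/-- the set of the `n` with `(d, n) ∈ T` -/
noncomputable def nb (T d : M) : M := sep d (fun n => E (opair d n) T)

theorem nb_df : Fn2 (fun a b : M => nb a b) := by unfold nb; infer_instance

instance {n : ℕ} {t s : (Fin n → M) → M} [ht : DfT t] [hs : DfT s] :
    DfT (fun v => nb (t v) (s v)) := nb_df.comp2 ht hs

theorem mem_nb {T d n : M} : E n (nb T d) ↔ E n d ∧ E (opair d n) T := by
  unfold nb; rw [mem_sep]

/-- some function `f` shows that the sets `nb T d \ f d`, for `d` in `b`, are disjoint -/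
def Fre (T b : M) : Prop := ∃ f, (∀ d, E d b → (∃ n, E n (nb T d)) → E (app f d) d) ∧
  ∀ d d' n, E d b → E d' b → d ≠ d' → E n (nb T d) → E n (nb T d') →
    E n (app f d) ∨ E n (app f d')

theorem Fre_df : Cl2 (fun T b : M => Fre T b) := by unfold Fre; infer_instance

instance {n : ℕ} {t s : (Fin n → M) → M} [ht : DfT t] [hs : DfT s] :
    Df (fun v => Fre (t v) (s v)) := Fre_df.comp2 ht hs

/-- `T` is a set of pairs `(d, n)` with `n ∈ d ∈ l` which is locally free but not free -/
structure Tm (l T : M) : Prop where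
  ord : Ord l
  tri : ∀ z, E z T → ∃ d n, z = opair d n ∧ E n d ∧ E d l
  seg : ∀ d g, E d l → E g d → Cb (inter g (nb T d))
  sz : ∀ d, E d l → Sz 1 (nb T d)
  free : ∀ b, E b l → Fre T b
  bdd : ∀ (k : ℕ) (X : M), Sz k X → Sub X l → ∃ b, E b l ∧ Sub X b
  unc : ∀ g, (∀ n, E n l → Cb (app g n)) → ∃ d, E d l ∧ ¬ Cb (nb T d) ∧
    ∀ n, E n (nb T d) → ¬ E d (app g n)

/-- `D` is closed under neighbours -/
def Clo (T D : M) : Prop := ∀ d n, E d D → E n (nb T d) → E n D

theorem Clo_df : Cl2 (fun T b : M => Clo T b) := by unfold Clo; infer_instance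

instance {n : ℕ} {t s : (Fin n → M) → M} [ht : DfT t] [hs : DfT s] :
    Df (fun v => Clo (t v) (s v)) := Clo_df.comp2 ht hs

/-- `D` is closed under common neighbours -/
def Gd (T D : M) : Prop := ∀ d d' n, E d D → E d' D → d ≠ d' → E n (nb T d) → E n (nb T d') →
  E n D

theorem Gd_df : Cl2 (fun T b : M => Gd T b) := by unfold Gd; infer_instance

instance {n : ℕ} {t s : (Fin n → M) → M} [ht : DfT t] [hs : DfT s] :
    Df (fun v => Gd (t v) (s v)) := Gd_df.comp2 ht hs

/-- `a` has countable intersections with the neighbourhoods of the members of `b` which are not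
in `a` -/
def Nic (T a b : M) : Prop := ∀ d, E d b → ¬ E d a → Cb (inter a (nb T d))

theorem Nic_df : Cl3 (fun T a b : M => Nic T a b) := by unfold Nic; infer_instance

instance {n : ℕ} {t s u : (Fin n → M) → M} [ht : DfT t] [hs : DfT s] [hu : DfT u] :
    Df (fun v => Nic (t v) (s v) (u v)) := Nic_df.comp3 ht hs hu

/-! ### the first notion of forcing -/

/-- `l` is a regular cardinal above aleph omega (as far as needed) -/
structure Rg (w l : M) : Prop where
  ord : Ord l
  w1 : IsW w
  wl : E w l
  suc : ∀ a, E a l → E (SW.suc a) l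
  alf : ∀ (k : ℕ) (v : M), Alf k v → E v l
  reg : ∀ b f, E b l → (∀ x, E x b → E (app f x) l) → ∃ c, E c l ∧ ∀ x, E x b → E (app f x) c

/-- `t` is a template on the ordinal `b` -/
def TC (w b t : M) : Prop :=
  (∀ z, E z t → ∃ d n, z = opair d n ∧ E n d ∧ E d b) ∧
  (∀ d g, E d b → E g d → Cb (inter g (nb t d))) ∧
  (∀ d, E d b → (∃ n, E n (nb t d)) → ∀ c, Sub c d → Cb c → ∃ g, E g d ∧ Sub c g) ∧
  (∀ d, E d b → Img w (nb t d)) ∧ Fre t b

theorem TC_df : Cl3 (fun w b t : M => TC w b t) := by unfold TC; infer_instance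

instance {n : ℕ} {t s u : (Fin n → M) → M} [ht : DfT t] [hs : DfT s] [hu : DfT u] :
    Df (fun v => TC (t v) (s v) (u v)) := TC_df.comp3 ht hs hu

/-- conditions: pairs `(b, t)`, `t` a template on `b`, `b` in `l` -/
noncomputable def QP (w l : M) : M := sep (prod l (pow (prod l l)))
  (fun p => ∃ b t, p = opair b t ∧ TC w b t)

/-- the order: `p` is an end extension of `q` -/
def QL (p q : M) : Prop := Sub (CC.fst q) (CC.fst p) ∧ CC.snd q = res (CC.snd p) (CC.fst q)

theorem QL_df : Cl2 (fun p q : M => QL p q) := by unfold QL; infer_instance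

instance {n : ℕ} {t s : (Fin n → M) → M} [ht : DfT t] [hs : DfT s] :
    Df (fun v => QL (t v) (s v)) := QL_df.comp2 ht hs

/-- `F` is the first notion of forcing -/
structure QF (w l : M) (F : FPoset M) : Prop where
  P : F.P = QP w l
  le : ∀ p q, F.le p q ↔ QL p q
  one : F.one = opair emp emp

end

/-! ### good orders -/

section
variable {N : Type} [SetStr N] [ZF N]

/-- the code of a vertex -/
noncomputable def vx (i : Bool) (x : N) : N := opair (if i then sing emp else emp) x

/-- the vertices in `V` -/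
def VX (V : N) : Set Vx := {v | ∃ x : N, Sub x om ∧ rb x = v.2 ∧ E (vx v.1 x) V}

/-- all vertices of `N` -/
def VN (N : Type) [SetStr N] [ZF N] : Set Vx := {v | ∃ x : N, Sub x om ∧ rb x = v.2}

/-- `V` is a set of vertices -/
def IsV (V : N) : Prop := ∀ v, E v V → ∃ x, Sub x om ∧ (v = opair emp x ∨ v = opair (sing emp) x)

/-- the vertices `v`, `v'` are adjacent -/
def Nb (v v' : N) : Prop := ∃ x y : N, Sub x om ∧ Sub y om ∧
  ((v = vx false x ∧ v' = vx true y) ∨ (v' = vx false x ∧ v = vx true y)) ∧
  ZZ (rb x) (rb y)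

/-- `W` is a well-ordering of `V` such that every vertex has countably many smaller neighbours -/
structure GW (V W : N) : Prop where
  tot : ∀ v v', E v V → E v' V → v ≠ v' → E (opair v v') W ∨ E (opair v' v) W
  asy : ∀ v v', E v V → E v' V → E (opair v v') W → ¬ E (opair v' v) W
  tra : ∀ u v v', E u V → E v V → E v' V → E (opair u v) W → E (opair v v') W →
    E (opair u v') W
  wf : ∀ S, Sub S V → (∃ v, E v S) → ∃ v, E v S ∧ ∀ v', E v' S → ¬ E (opair v' v) W
  cnt : ∀ v, E v V → ∃ C, Cb C ∧ ∀ v', E v' V → E (opair v' v) W → Nb v' v → E v' C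

/-- the relation `ZZ` is definable in `N` -/
def ZD (N : Type) [SetStr N] [ZF N] : Prop :=
  Cl2 (fun x y : N => ZZ (rb x) (rb y))

/-! ### internal groups -/

/-- the group structure on the members of `G` is given by the set `m` -/
def Rep (G m : N) [Group {x : N // E x G}] : Prop :=
  ∀ a b c : {x : N // E x G}, Trp a.1 b.1 c.1 m ↔ a * b = c

/-- the subset of the group given by the set `X` -/
def EX (G X : N) : Set {x : N // E x G} := {x | E x.1 X}

/-- what is needed about the graph: `y`, `w` are one to one functions from `l` to reals such that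
all pairs in `T` give edges, and `T` is not free -/
structure Bad (l T y w : N) : Prop where
  ry : ∀ d, E d l → Sub (app y d) om
  rw : ∀ d, E d l → Sub (app w d) om
  iy : ∀ d d', E d l → E d' l → app y d = app y d' → d = d'
  iw : ∀ d d', E d l → E d' l → app w d = app w d' → d = d'
  ord : Ord l
  ed : ∀ d n, E d l → E n (nb T d) → ZZ (rb (app y d)) (rb (app w n))
  unc : ∀ g, (∀ n, E n l → Cb (app g n)) → ∃ d, E d l ∧ ¬ Cb (nb T d) ∧
    ∀ n, E n (nb T d) → ¬ E d (app g n)

/-- the group on the set `KS c` of real numbers of `N` with the operation `m`: `h` is an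
isomorphism with the group of all vertices of `N`; `L` is the order of the real numbers -/
structure GD (c : CUR.Codes N) (m L : N) (h : N → Gr ZZ) : Prop where
  mem : ∀ t, E t m ↔ ∃ a b d, E a (CUR.KS c) ∧ E b (CUR.KS c) ∧ E d (CUR.KS c) ∧
    t = opair (opair a b) d ∧ h a * h b = h d
  inj : ∀ a b, E a (CUR.KS c) → E b (CUR.KS c) → h a = h b → a = b
  rng : ∀ g, (∃ a, E a (CUR.KS c) ∧ h a = g) ↔ g ∈ GV (ZZ) (VN N)
  gx : ∃ f : N → N → N → N, DfT (fun v : Fin 3 → N => f (v 0) (v 1) (v 2)) ∧
    ∀ (x : N), Sub x om → ∀ s : Str,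
      (E (f emp x (nu (sc s))) (CUR.KS c) ∧
        h (f emp x (nu (sc s))) = GX (ZZ) (false, rb x) s) ∧
      (E (f (sing emp) x (nu (sc s))) (CUR.KS c) ∧
        h (f (sing emp) x (nu (sc s))) = GX (ZZ) (true, rb x) s)
  gt : ∃ f : N → N → N → N, DfT (fun v : Fin 3 → N => f (v 0) (v 1) (v 2)) ∧
    ∀ (x y : N), Sub x om → Sub y om → ∀ n : ℕ, E (f x y (nu n)) (CUR.KS c) ∧
      h (f x y (nu n)) = GT (ZZ) (rb x) (rb y) n
  vs : ∃ f : N → N, Fn1 f ∧ ∀ a, E a (CUR.KS c) → Cb (f a) ∧ IsV (f a) ∧
    h a ∈ GV (ZZ) (VX (f a))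
  ana : IsAnalytic (CUR.KS c) L m

/-- HGR (the interface of the Borel part): the group on the set of real numbers of a model with
standard natural numbers which contains the codes `R` -/
def HGRStmt : Prop := ∃ R : ℕ → Set (Fin 5 → ℕ), ∀ (N : Type) [SetStr N] [ZFC N], WFd N →
  (∀ i, Has N (R i)) → ZD N ∧ ∃ (c : CUR.Codes N) (P Q L z u m : N) (h : N → Gr ZZ),
    IsRealNumbers (CUR.KS c) P Q L z u ∧ GD c m L h

end

end AO
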