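import Pool.Agent.H98.AO.Iface

/-!
Statements of the modules: groups inside a model.
-/

set_option linter.unusedVariables false
set_option linter.unusedSectionVars false
set_option synthInstance.maxSize 100000

namespace AO

open SW

section
variable {N : Type} [SetStr N] [ZF N]

/-- `B` is an (external) basis of the group `(H, m)` -/
def IFB (H m B : N) : Prop := Incl B H ∧
  ∀ [Group {x : N // E x H}], Rep H m → FB (EX H B) ⊤

/-- the external well-order of vertices given by `W` -/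
def rW (W : N) (v v' : Vx) : Prop := ∃ x x' : N, Sub x om ∧ Sub x' om ∧ rb x = v.2 ∧
  rb x' = v'.2 ∧ E (opair (vx v.1 x) (vx v'.1 x')) W

/-- `H` is the subgroup generated by the vertices in `V` -/
def VSub (c : CUR.Codes N) (h : N → Gr ZZ) (V H : N) : Prop := Incl H (CUR.KS c) ∧
  ∀ a, E a (CUR.KS c) → (E a H ↔ h a ∈ GV ZZ (VX V))

end

/-! ### general facts -/

/-- GPI: internal groups are groups -/
def GPIStmt : Prop := ∀ (N : Type) [SetStr N] [ZF N] (G m : N), IsGroup G m →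
  ∃ _ : Group {x : N // E x G}, Rep G m

/-- GPJ: internal subgroups -/
def GPJStmt : Prop := ∀ (N : Type) [SetStr N] [ZF N] (G m H : N), IsGroup G m →
  ∀ [Group {x : N // E x G}], Rep G m → Incl H G →
  (IsGroup H m ↔ ∃ S : Subgroup {x : N // E x G}, ∀ x, x ∈ S ↔ E x.1 H)

/-- GPG: external groups with an internal operation are internal groups -/
def GPGStmt : Prop := ∀ (N : Type) [SetStr N] [ZF N] (G m : N) [Group {x : N // E x G}],
  Rep G m → (∀ a b c, E a G → E b G → Trp a b c m → E c G) → IsGroup G m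

/-- GEN: the subgroup generated by an internal set -/
def GENStmt : Prop := ∀ (N : Type) [SetStr N] [ZFC N], Std N → ∀ (G m : N)
  [Group {x : N // E x G}], Rep G m → ∃ cl : N → N, Fn1 cl ∧
    (∀ X y, E y (cl X) ↔ ∃ h : E y G, (⟨y, h⟩ : {x : N // E x G}) ∈
      Subgroup.closure (EX G X)) ∧ ∀ X, Cb X → Cb (cl X)

/-- NCL: the normal subgroup generated by an internal set -/
def NCLStmt : Prop := ∀ (N : Type) [SetStr N] [ZFC N], Std N → ∀ (G m : N)
  [Group {x : N // E x G}], Rep G m → ∀ X, ∃ Y, ∀ y, E y Y ↔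
    ∃ h : E y G, (⟨y, h⟩ : {x : N // E x G}) ∈ Subgroup.normalClosure (EX G X)

/-- FRX: internal bases are bases -/
def FRXStmt : Prop := ∀ (N : Type) [SetStr N] [ZFC N], Std N → ∀ (G m B : N), IsGroup G m →
  IsBasis G m B → IFB G m B

/-- FRI: internal sets which are bases are internal bases -/
def FRIStmt : Prop := ∀ (N : Type) [SetStr N] [ZFC N], Std N → ∀ (G m B : N), IsGroup G m →
  IFB G m B → IsBasis G m B

/-- TRV: internal Schreier transversals -/
def TRVStmt : Prop := ∀ (N : Type) [SetStr N] [ZFC N], Std N → ∀ (G m B H : N)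
  [Group {x : N // E x G}], Rep G m → Incl B G → Subgroup.closure (EX G B) = ⊤ →
  ∀ S : Subgroup {x : N // E x G}, (∀ x, x ∈ S ↔ E x.1 H) →
  ∃ (T : N) (len : {x : N // E x G} → ℕ), 1 ∈ EX G T ∧
    (∀ t ∈ EX G T, t ≠ 1 → ∃ t' ∈ EX G T, len t' < len t ∧ ∃ b ∈ EX G B, t = t' * b ∨ t' = t * b) ∧
    (∀ g, ∃ t ∈ EX G T, g * t⁻¹ ∈ S) ∧ ∀ t ∈ EX G T, ∀ t' ∈ EX G T, t * t'⁻¹ ∈ S → t = t'

/-- NSI: internal subgroups of internal free groups are free -/
def NSIStmt : Prop := ∀ (N : Type) [SetStr N] [ZFC N], Std N → ∀ (G m B H : N), IsGroup G m →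
  IFB G m B → Incl H G → IsGroup H m → ∃ B', IFB H m B'

/-! ### the group of the vertices -/

/-- GHM: the group on the set of reals -/
def GHMStmt : Prop := ∀ (N : Type) [SetStr N] [ZF N] (c : CUR.Codes N) (m L : N)
  (h : N → Gr ZZ), GD c m L h → IsGroup (CUR.KS c) m ∧
  ∀ H, Incl H (CUR.KS c) → IsGroup H m → ∀ [Group {x : N // E x H}], Rep H m →
    ∃ φ : {x : N // E x H} →* Gr ZZ, Function.Injective φ ∧ ∀ a, φ a = h a.1

/-- VSG: the subgroups generated by vertices -/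
def VSGStmt : Prop := ∃ R : ℕ → Set (Fin 5 → ℕ), ∀ (N : Type) [SetStr N] [ZFC N], Std N →
  (∀ i, Has N (R i)) → ∀ (c : CUR.Codes N) (m L : N) (h : N → Gr ZZ), GD c m L h →
  ∀ V, IsV V → ∃ H, VSub c h V H ∧ IsGroup H m

/-- WOX: internal well-orders are externally well-founded -/
def WOXStmt : Prop := ∀ (N : Type) [SetStr N] [ZFC N], WFd N → ∀ V W : N, GW V W →
  ∀ S : Set N, (∀ v ∈ S, E v V) → S.Nonempty → ∃ v ∈ S, ∀ v' ∈ S, ¬ E (opair v' v) W

/-- facts about the coding of vertices and the order of vertices -/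
structure VoxFacts (N : Type) [SetStr N] [ZF N] : Prop where
  inj : ∀ x y : N, Sub x om → Sub y om → rb x = rb y → x = y
  vxi : ∀ (i j : Bool) (x y : N), vx i x = vx j y → i = j ∧ x = y
  mem : ∀ (V x : N) (i : Bool), Sub x om → ((i, rb x) ∈ VX V ↔ E (vx i x) V)
  ofV : ∀ V v : N, IsV V → E v V → ∃ (i : Bool) (x : N), Sub x om ∧ v = vx i x
  rw : ∀ (W x y : N) (i j : Bool), Sub x om → Sub y om →
    (rW W (i, rb x) (j, rb y) ↔ E (opair (vx i x) (vx j y)) W)
  str : ∀ (x y : N) (n : ℕ), Sub x om → Sub y om →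
    (str (rb x) n = str (rb y) n ↔ inter x (nu n) = inter y (nu n))
  sepr : ∀ x y : N, Sub x om → Sub y om → x ≠ y → ∃ n : ℕ, inter x (nu n) ≠ inter y (nu n)

/-- VOX -/
def VOXStmt : Prop := ∀ (N : Type) [SetStr N] [ZF N], Std N → VoxFacts N

/-- KAP: separating the earlier neighbours of every vertex -/
def KAPStmt : Prop := ∀ (N : Type) [SetStr N] [ZFC N], Std N → ZD N → ∀ V W : N, IsV V →
  GW V W → ∃ k : N, (∀ x y, Sub x om → Sub y om → E (app k (opair x y)) om) ∧
  (∀ x y y' : N, ∀ n i j : ℕ, E (vx false x) V → E (vx true y) V → E (vx true y') V →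
    ZZ (rb x) (rb y) → ZZ (rb x) (rb y') → E (opair (vx true y) (vx false x)) W →
    E (opair (vx true y') (vx false x)) W → app k (opair x y) = nu i →
    app k (opair x y') = nu j → i ≤ n → j ≤ n → inter y (nu (n + 1)) = inter y' (nu (n + 1)) →
    y = y') ∧
  ∀ x x' y : N, ∀ n i j : ℕ, E (vx false x) V → E (vx false x') V → E (vx true y) V →
    ZZ (rb x) (rb y) → ZZ (rb x') (rb y) → E (opair (vx false x) (vx true y)) W →
    E (opair (vx false x') (vx true y)) W → app k (opair x y) = nu i →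
    app k (opair x' y) = nu j → i ≤ n → j ≤ n → inter x (nu (n + 1)) = inter x' (nu (n + 1)) →
    x = x'

/-- IBS: the basis given by a good order is in the model -/
def IBSStmt : Prop := ∃ R : ℕ → Set (Fin 5 → ℕ), ∀ (N : Type) [SetStr N] [ZFC N], Std N →
  (∀ i, Has N (R i)) → ZD N → ∀ (c : CUR.Codes N) (m L : N) (h : N → Gr ZZ), GD c m L h →
  ∀ (V W k : N) (κ : Rl → Rl → ℕ), IsV V → (∀ x y, Sub x om → Sub y om →
    app k (opair x y) = nu (κ (rb x) (rb y))) →
  ∃ B, Incl B (CUR.KS c) ∧ ∀ a, E a (CUR.KS c) → (E a B ↔ h a ∈ Bas ZZ (VX V) (rW W) κ)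

/-- GFR: good orders give bases -/
def GFRStmt : Prop := ∃ R : ℕ → Set (Fin 5 → ℕ), ∀ (N : Type) [SetStr N] [ZFC N], WFd N →
  (∀ i, Has N (R i)) → ZD N → ∀ (c : CUR.Codes N) (m L : N) (h : N → Gr ZZ), GD c m L h →
  ∀ V W H, IsV V → GW V W → VSub c h V H → IsGroup H m → ∃ B, IFB H m B

/-- SUP: supports of small sets -/
def SUPStmt : Prop := ∀ (N : Type) [SetStr N] [ZFC N] (c : CUR.Codes N) (m L : N)
  (h : N → Gr ZZ), GD c m L h → ∀ (n : ℕ) (H : N), Incl H (CUR.KS c) → Sz n H →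
  ∃ V' : N, IsV V' ∧ Sz n V' ∧ ∀ a, E a H → h a ∈ GV ZZ (VX V')

/-- SMF: small subgroups are free -/
def SMFStmt : Prop := ∃ R : ℕ → Set (Fin 5 → ℕ), ∀ (N : Type) [SetStr N] [ZFC N], WFd N →
  (∀ i, Has N (R i)) → ZD N → ∀ (c : CUR.Codes N) (m L : N) (h : N → Gr ZZ), GD c m L h →
  (∀ (n : ℕ) (V' : N), IsV V' → Sz n V' → ∃ V W, Sub V' V ∧ IsV V ∧ GW V W) →
  ∀ H, Incl H (CUR.KS c) → IsGroup H m → BelowAlephOmega H → IsFree H m

/-! ### the group is not free -/

/-- FSU: finite supports in a basis -/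
def FSUStmt : Prop := ∀ (N : Type) [SetStr N] [ZFC N], Std N → ∀ (G m B : N), IsGroup G m →
  ∀ [Group {x : N // E x G}], Rep G m → Subgroup.closure (EX G B) = ⊤ →
  ∃ s : N, ∀ a (ha : E a G), Fnt (app s a) ∧ Sub (app s a) B ∧
    (⟨a, ha⟩ : {x : N // E x G}) ∈ Subgroup.closure (EX G (app s a))

/-- NFD: the vertex given by the template; `g2` names the generators of the second side, `s` gives
the supports in the basis, `vs` the supports of the members of the group -/
def NFDStmt : Prop := ∀ (N : Type) [SetStr N] [ZFC N] (l T y w s X B : N) (g2 : N → N → N)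
  (vs : N → N), Bad l T y w → Fn2 g2 → Fn1 vs → Sub B X →
  (∀ a, E a X → Fnt (app s a) ∧ Sub (app s a) B) → (∀ a, E a X → Cb (vs a)) →
  ∃ d, E d l ∧ ¬ Cb (nb T d) ∧ ∀ n k b, E n (nb T d) → E k om → E (g2 (app w n) k) X →
    E b (app s (g2 (app w n) k)) → ¬ E (vx false (app y d)) (vs b)

/-- NFE: the group is not free -/
def NFEStmt : Prop := ∀ (N : Type) [SetStr N] [ZFC N], Std N → ∀ (c : CUR.Codes N) (m L : N)
  (h : N → Gr ZZ), GD c m L h → ∀ l T y w B : N, Bad l T y w → ¬ IFB (CUR.KS c) m B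

end AO
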