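import Pool.Agent.H98.AO.BStmts
import Pool.Agent.H35.MA.ZFM

/-!
Statement of the module ZFV.
-/

namespace AO

open SW

/-- ZFV: countable elementary submodels of the class of all sets of Lean, containing given sets -/
def ZFVStmt : Prop := ∀ S : ℕ → ZFSet.{0}, ∃ (M : Type) (_ : SetStr M) (_ : ZFC M)
  (i : M → ZFSet.{0}), Countable M ∧ Function.Injective i ∧ (∀ x y, E x y ↔ i x ∈ i y) ∧
  (∀ n, ∃ x, i x = S n) ∧
  ∀ (n : ℕ) (f : Fml n) (v : Fin n → M), Sat f v ↔ SatZ f (fun j => i (v j))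

end AO
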